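import Mathlib
import Pool.Agent.Lib.MP_8b9ec4_lc.Defs

/-!
# Orthogonal pairs of measures in uncountable Polish groups: definitions and statements

Goal (`StStar`): every uncountable Polish group `G` carries Borel probability measures `μ₀`, `μ₁`
and Borel sets `D`, `E` with `μ₀ Dᶜ = 0 = μ₁ Eᶜ` and `μ₀ (g E h) = 0 = μ₁ (g D h)` for all
`g`, `h`.
-/

namespace Pool.Agent.MP8b9

namespace PQ

open MeasureTheory Set

/-- The Cantor space. -/
abbrev Cant := ℕ → Bool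

/-- Two measures living on sets all of whose two-sided translates are null for the other one. -/
def Star (G : Type*) [Group G] [MeasurableSpace G] : Prop :=
  ∃ (μ₀ μ₁ : Measure G) (D E : Set G), IsProbabilityMeasure μ₀ ∧ IsProbabilityMeasure μ₁ ∧
    MeasurableSet D ∧ MeasurableSet E ∧ μ₀ Dᶜ = 0 ∧ μ₁ Eᶜ = 0 ∧
    (∀ g h : G, μ₀ ((fun x => g * x * h) '' E) = 0) ∧
    ∀ g h : G, μ₁ ((fun x => g * x * h) '' D) = 0

/-- Every value of `f` is taken at least twice. -/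
def Twice {n : ℕ} {T : Type*} (f : Fin n → T) : Prop := ∀ i, ∃ j, j ≠ i ∧ f j = f i

section letters

variable {G : Type*} [Group G]

/-- The letters `σ n x` are independent: a word of length at most `16` in which some letter occurs
exactly once is not trivial. -/
def Ind (σ : ℕ → Cant → G) : Prop :=
  ∀ (n : ℕ) (w : Fin n → ℕ × Cant) (ε : Fin n → Bool) (i : Fin n), n ≤ 16 →
    (∀ j, j ≠ i → w j ≠ w i) →
    (List.ofFn fun j => bif ε j then σ (w j).1 (w j).2 else (σ (w j).1 (w j).2)⁻¹).prod ≠ 1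

/-- Products of two letters. -/
def wE (σ : ℕ → Cant → G) (p : Cant × Cant) : G := σ 0 p.1 * σ 1 p.2

/-- Products of three letters. -/
def wF (σ : ℕ → Cant → G) (p : Cant × Cant × Cant) : G := σ 2 p.1 * σ 3 p.2.1 * σ 4 p.2.2

/-- The consequences of the independence which are used. -/
structure Words (σ : ℕ → Cant → G) : Prop where
  e1 : Function.Injective (wE σ)
  f1 : Function.Injective (wF σ)
  f4 : ∀ p : Fin 4 → Cant × Cant × Cant,
    (wF σ (p 0))⁻¹ * wF σ (p 1) * (wF σ (p 2))⁻¹ * wF σ (p 3) = 1 →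
    Twice (fun i => (p i).1) ∧ Twice (fun i => (p i).2.1) ∧ Twice (fun i => (p i).2.2)
  e6 : ∀ r : Fin 6 → Cant × Cant,
    wE σ (r 0) * (wE σ (r 1))⁻¹ * wE σ (r 2) * (wE σ (r 3))⁻¹ * wE σ (r 4) * (wE σ (r 5))⁻¹ = 1 →
    Twice (fun i => (r i).1) ∧ Twice (fun i => (r i).2)
  e8 : ∀ r : Fin 8 → Cant × Cant,
    wE σ (r 0) * (wE σ (r 1))⁻¹ * wE σ (r 2) * (wE σ (r 3))⁻¹ * wE σ (r 4) * (wE σ (r 5))⁻¹ *
      wE σ (r 6) * (wE σ (r 7))⁻¹ = 1 →
    Twice (fun i => (r i).1) ∧ Twice (fun i => (r i).2)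

end letters

/-- (I) Existence of independent letters. -/
def StI : Prop :=
  ∀ (G : Type) [Group G] [TopologicalSpace G] [IsTopologicalGroup G] [PolishSpace G],
    ¬ Countable G → ∃ σ : ℕ → Cant → G, (∀ n, Continuous (σ n)) ∧ Ind σ

/-- (W) The words. -/
def StW : Prop := ∀ (G : Type) [Group G] (σ : ℕ → Cant → G), Ind σ → Words σ

/-- (R) Rectangles. -/
def StR : Prop :=
  ∀ (ν : Measure Cant) [IsProbabilityMeasure ν], (∀ x, ν {x} = 0) →
    ∀ S : Set (Cant × Cant), MeasurableSet S → (ν.prod ν) S ≠ 0 →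
      ∃ s s' t t', s ≠ s' ∧ t ≠ t' ∧ (s, t) ∈ S ∧ (s, t') ∈ S ∧ (s', t) ∈ S ∧ (s', t') ∈ S

/-- Flags in `ℝ³`: `f 0` is the `x`-coordinate of the point, and `y₁ = f 1 * x + f 3`,
`y₂ = f 2 * x + f 4` are the equations of the line. -/
abbrev Fl := Fin 5 → ℝ

/-- The first letter of the point: `(x, y₁)`. -/
def cA (f : Fl) : ℝ × ℝ := (f 0, f 1 * f 0 + f 3)

/-- The second letter of the point: `(x, y₂)`. -/
def cB (f : Fl) : ℝ × ℝ := (f 0, f 2 * f 0 + f 4)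

/-- The line. -/
def cL (f : Fl) : ℝ × ℝ × ℝ × ℝ := (f 1, f 2, f 3, f 4)

/-- (N) There are no four balanced flags. -/
def StN : Prop :=
  ∀ f : Fin 4 → Fl, Function.Injective f → Twice (fun i => cA (f i)) →
    Twice (fun i => cB (f i)) → Twice (fun i => cL (f i)) → False

/-- The flag `γ` (scaled by `ε`) seen from the flag `f`. -/
def mv (ε : ℝ) (γ : Fin 5 → ℤ) (f : Fl) : Fl :=
  ![f 0 + ε * γ 0, f 1 + ε * γ 1, f 2 + ε * γ 2, f 3 + ε ^ 2 * γ 3 - ε * γ 1 * f 0,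
    f 4 + ε ^ 2 * γ 4 - ε * γ 2 * f 0]

/-- (L) Every finite configuration occurs in every set of positive measure. -/
def StL : Prop :=
  ∀ S : Set Fl, MeasurableSet S → volume S ≠ 0 → ∀ Γ : Finset (Fin 5 → ℤ),
    ∃ ε : ℝ, 0 < ε ∧ ∃ f : Fl, ∀ γ ∈ Γ, mv ε γ f ∈ S

/-- Letters of integral flags. -/
def zA (γ : Fin 5 → ℤ) : ℤ × ℤ := (γ 0, γ 1 * γ 0 + γ 3)

/-- Letters of integral flags. -/
def zB (γ : Fin 5 → ℤ) : ℤ × ℤ := (γ 0, γ 2 * γ 0 + γ 4)

/-- Lines of integral flags. -/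
def zL (γ : Fin 5 → ℤ) : ℤ × ℤ × ℤ × ℤ := (γ 1, γ 2, γ 3, γ 4)

/-- (V) The map `mv` respects the letters. -/
def StV : Prop :=
  ∀ ε : ℝ, 0 < ε → ∀ (f : Fl) (γ γ' : Fin 5 → ℤ),
    (cA (mv ε γ f) = cA (mv ε γ' f) ↔ zA γ = zA γ') ∧
    (cB (mv ε γ f) = cB (mv ε γ' f) ↔ zB γ = zB γ') ∧
    (cL (mv ε γ f) = cL (mv ε γ' f) ↔ zL γ = zL γ') ∧
    (mv ε γ f = mv ε γ' f ↔ γ = γ')

/-- The six flags of a triangle. -/
def Hex (g : Fin 6 → (Fin 5 → ℤ)) : Prop :=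
  zL (g 0) = zL (g 1) ∧ (zA (g 1) = zA (g 2) ∧ zB (g 1) = zB (g 2)) ∧
  zL (g 2) = zL (g 3) ∧ (zA (g 3) = zA (g 4) ∧ zB (g 3) = zB (g 4)) ∧
  zL (g 4) = zL (g 5) ∧ (zA (g 5) = zA (g 0) ∧ zB (g 5) = zB (g 0))

/-- The eight flags of a windmill: the points of `g 0`, `g 3`, `g 4`, `g 7` are
`(x, y₁, y₂')`, `(x, y₁', y₂')`, `(x, y₁', y₂)`, `(x, y₁, y₂)`. -/
def Mill (g : Fin 8 → (Fin 5 → ℤ)) : Prop :=
  zL (g 0) = zL (g 1) ∧ (zA (g 1) = zA (g 2) ∧ zB (g 1) = zB (g 2)) ∧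
  zL (g 2) = zL (g 3) ∧ zB (g 0) = zB (g 3) ∧ zA (g 3) = zA (g 4) ∧
  zL (g 4) = zL (g 5) ∧ (zA (g 5) = zA (g 6) ∧ zB (g 5) = zB (g 6)) ∧
  zL (g 6) = zL (g 7) ∧ zB (g 4) = zB (g 7) ∧ zA (g 7) = zA (g 0)

/-- (C) The combinatorial core: there is a finite set `Γ` of integral flags which cannot be mapped
to the edges of a bipartite graph in the way described. -/
def StC : Prop :=
  ∃ Γ : Finset (Fin 5 → ℤ), ∀ s t : (Fin 5 → ℤ) → Cant,
    (∀ γ ∈ Γ, ∀ γ' ∈ Γ, s γ = s γ' → t γ = t γ' → γ = γ') →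
    (∀ g : Fin 4 → (Fin 5 → ℤ), (∀ i, g i ∈ Γ) → Function.Injective g →
      s (g 0) = s (g 1) → t (g 1) = t (g 2) → s (g 2) = s (g 3) → t (g 3) = t (g 0) → False) →
    (∀ g : Fin 6 → (Fin 5 → ℤ), (∀ i, g i ∈ Γ) → Hex g →
      Twice (fun i => s (g i)) ∧ Twice (fun i => t (g i))) →
    (∀ g : Fin 8 → (Fin 5 → ℤ), (∀ i, g i ∈ Γ) → Mill g →
      Twice (fun i => s (g i)) ∧ Twice (fun i => t (g i))) → False

/-- (C1) Six edges of a bipartite graph without `C₄` in which all vertices have degree at least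
two form a hexagon; here: no vertex has degree at least three, and two vertices on the same side
have a common neighbour. -/
def StC1 : Prop :=
  ∀ s t : Fin 6 → Cant, (∀ i j, s i = s j → t i = t j → i = j) →
    (∀ a b c d : Fin 6, a ≠ b → b ≠ c → s a = s b → t b = t c → s c = s d → t d = t a → False) →
    Twice s → Twice t →
    (∀ i j k, i ≠ j → j ≠ k → i ≠ k → s i = s j → s j = s k → False) ∧
    (∀ i j k, i ≠ j → j ≠ k → i ≠ k → t i = t j → t j = t k → False) ∧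
    ∀ i j, s i ≠ s j → ∃ k l, s k = s i ∧ s l = s j ∧ t k = t l

/-- (S) The goal. -/
def StStar : Prop :=
  ∀ (G : Type) [Group G] [TopologicalSpace G] [IsTopologicalGroup G] [PolishSpace G]
    [MeasurableSpace G] [BorelSpace G], ¬ Countable G → Star G

/-- (P) The partition. -/
def StP : Prop :=
  ∀ (G : Type) [Group G] [TopologicalSpace G] [IsTopologicalGroup G] [PolishSpace G]
    [MeasurableSpace G] [BorelSpace G], Cardinal.continuum.{0} = Cardinal.aleph 1 → Star G →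
    ∃ S : Set G, NaivelyHaarNull S ∧ NaivelyHaarNull Sᶜ

end PQ

end Pool.Agent.MP8b9
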