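import Pool.Agent.Lib.MP_8b9ec4_lc.PQ.Stmts

/-!
# Project PQ, module C: the combinatorial core
-/

set_option autoImplicit false

namespace Pool.Agent.MP8b9

namespace PQ

open Set

namespace CoreAux

/-- integral flags -/
abbrev Z5 := Fin 5 → ℤ

/-- the four directions -/
def dir : Fin 4 → ℤ × ℤ := ![(0, 0), (0, 1), (1, 0), (1, 1)]

/-- the flag over `a` on the line through the origin with direction `c` -/
def fl (c : Fin 4) (a : ℤ) : Z5 := ![a, (dir c).1, (dir c).2, 0, 0]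

/-- the flags on the third line of a triangle -/
def th (c c' : Fin 4) (k a : ℤ) : Z5 :=
  ![a, (dir c').1 + k * ((dir c').1 - (dir c).1), (dir c').2 + k * ((dir c').2 - (dir c).2),
    (k + k * k) * ((dir c).1 - (dir c').1), (k + k * k) * ((dir c).2 - (dir c').2)]

/-- the triangles -/
def hx (c c' : Fin 4) (k : ℤ) : Fin 6 → Z5 :=
  ![fl c 0, fl c k, th c c' k k, th c c' k (k + 1), fl c' (k + 1), fl c' 0]

/-- the windmill -/
def ml : Fin 8 → Z5 :=
  ![fl 1 1, fl 1 0, fl 3 0, fl 3 1, fl 2 1, fl 2 0, fl 0 0, fl 0 1]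

/-- the finite set -/
noncomputable def Gam : Finset Z5 := Fintype.piFinset fun _ => Finset.Icc (-20) 20

theorem mem_Gam {γ : Z5} : γ ∈ Gam ↔ ∀ i, -20 ≤ γ i ∧ γ i ≤ 20 := by
  simp [Gam, Fintype.mem_piFinset, Finset.mem_Icc]

instance (g : Fin 6 → Z5) : Decidable (Hex g) := by
  unfold Hex
  infer_instance

instance (g : Fin 8 → Z5) : Decidable (Mill g) := by
  unfold Mill
  infer_instance

theorem hx_mem1 : ∀ c c' : Fin 4, ∀ i j, -20 ≤ hx c c' 1 i j ∧ hx c c' 1 i j ≤ 20 := by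
  decide +kernel

theorem hx_mem2 : ∀ c c' : Fin 4, ∀ i j, -20 ≤ hx c c' 2 i j ∧ hx c c' 2 i j ≤ 20 := by
  decide +kernel

theorem ml_mem : ∀ i j, -20 ≤ ml i j ∧ ml i j ≤ 20 := by
  decide +kernel

theorem fl_mem0 : ∀ c : Fin 4, ∀ j, -20 ≤ fl c 0 j ∧ fl c 0 j ≤ 20 := by
  decide +kernel

theorem fl_mem1 : ∀ c : Fin 4, ∀ j, -20 ≤ fl c 1 j ∧ fl c 1 j ≤ 20 := by
  decide +kernel

theorem hx_hex1 : ∀ c c' : Fin 4, Hex (hx c c' 1) := by
  decide +kernel

theorem hx_hex2 : ∀ c c' : Fin 4, Hex (hx c c' 2) := by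
  decide +kernel

theorem ml_mill : Mill ml := by
  decide +kernel

theorem hx_inj1 : ∀ c c' : Fin 4, c ≠ c' → ∀ i j, hx c c' 1 i = hx c c' 1 j → i = j := by
  decide +kernel

theorem hx_inj2 : ∀ c c' : Fin 4, c ≠ c' → ∀ i j, hx c c' 2 i = hx c c' 2 j → i = j := by
  decide +kernel

theorem hx_cap12 : ∀ c c' : Fin 4, c ≠ c' → ∀ i j, hx c c' 1 i = hx c c' 2 j →
    hx c c' 1 i = fl c 0 ∨ hx c c' 1 i = fl c' 0 := by
  decide +kernel

theorem hx_cap11 : ∀ c r r' : Fin 4, c ≠ r → c ≠ r' → r ≠ r' → ∀ i j, hx c r 1 i = hx c r' 1 j →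
    hx c r 1 i = fl c 0 ∨ hx c r 1 i = fl c 1 := by
  decide +kernel

theorem fl_inj0 : ∀ c c' : Fin 4, fl c 0 = fl c' 0 → c = c' := by
  decide +kernel

/-- The hypotheses of the core. -/
structure Good (s t : Z5 → Cant) : Prop where
  inj : ∀ γ ∈ Gam, ∀ γ' ∈ Gam, s γ = s γ' → t γ = t γ' → γ = γ'
  c4 : ∀ g : Fin 4 → Z5, (∀ i, g i ∈ Gam) → Function.Injective g →
    s (g 0) = s (g 1) → t (g 1) = t (g 2) → s (g 2) = s (g 3) → t (g 3) = t (g 0) → False
  hex : ∀ g : Fin 6 → Z5, (∀ i, g i ∈ Gam) → Hex g →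
    Twice (fun i => s (g i)) ∧ Twice (fun i => t (g i))
  mill : ∀ g : Fin 8 → Z5, (∀ i, g i ∈ Gam) → Mill g →
    Twice (fun i => s (g i)) ∧ Twice (fun i => t (g i))

variable {s t : Z5 → Cant}

theorem Good.swap (h : Good s t) : Good t s where
  inj γ hγ γ' hγ' h1 h2 := h.inj γ hγ γ' hγ' h2 h1
  c4 g hg hi h1 h2 h3 h4 := by
    refine h.c4 (fun i => g (i + 1)) (fun i => hg _) (fun i j hij => ?_) ?_ ?_ ?_ ?_
    · exact add_right_cancel (hi hij)
    · exact h2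
    · exact h3
    · exact h4
    · exact h1
  hex g hg hh := (h.hex g hg hh).symm
  mill g hg hh := (h.mill g hg hh).symm

theorem Good.no4 (h : Good s t) {u v w x : Z5} (hu : u ∈ Gam) (hv : v ∈ Gam) (hw : w ∈ Gam)
    (hx : x ∈ Gam) (h1 : s u = s v) (h2 : t v = t w) (h3 : s w = s x) (h4 : t x = t u)
    (ha : t u ≠ t v) (hb : s v ≠ s w) : False := by
  have uv : u ≠ v := fun e => ha (e ▸ rfl)
  have vw : v ≠ w := fun e => hb (e ▸ rfl)
  have wx : w ≠ x := fun e => ha (by rw [← h4, ← e, h2])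
  have ux : u ≠ x := fun e => hb (by rw [← h1, e, h3])
  have uw : u ≠ w := fun e => hb (by rw [← h1, e])
  have vx : v ≠ x := fun e => ha (by rw [← h4, e])
  refine h.c4 ![u, v, w, x] ?_ ?_ h1 h2 h3 h4
  · intro i
    fin_cases i
    exacts [hu, hv, hw, hx]
  · intro i j hij
    fin_cases i <;> fin_cases j <;>
      first
        | rfl
        | exact absurd hij uv
        | exact absurd hij vw
        | exact absurd hij wx
        | exact absurd hij ux
        | exact absurd hij uw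
        | exact absurd hij vx
        | exact absurd hij uv.symm
        | exact absurd hij vw.symm
        | exact absurd hij wx.symm
        | exact absurd hij ux.symm
        | exact absurd hij uw.symm
        | exact absurd hij vx.symm

theorem Good.six (h1 : StC1) (h : Good s t) {g : Fin 6 → Z5} (hm : ∀ i, g i ∈ Gam)
    (hi : ∀ i j, g i = g j → i = j) (hh : Hex g) :
    (∀ i j k, i ≠ j → j ≠ k → i ≠ k → s (g i) = s (g j) → s (g j) = s (g k) → False) ∧
    (∀ i j k, i ≠ j → j ≠ k → i ≠ k → t (g i) = t (g j) → t (g j) = t (g k) → False) ∧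
    ∀ i j, s (g i) ≠ s (g j) → ∃ k l, s (g k) = s (g i) ∧ s (g l) = s (g j) ∧
      t (g k) = t (g l) := by
  have hinj : ∀ i j, s (g i) = s (g j) → t (g i) = t (g j) → i = j := fun i j a b =>
    hi i j (h.inj _ (hm i) _ (hm j) a b)
  refine h1 (fun i => s (g i)) (fun i => t (g i)) hinj ?_ (h.hex g hm hh).1 (h.hex g hm hh).2
  intro a b c d hab hbc h2 h3 h4 h5
  refine h.no4 (hm a) (hm b) (hm c) (hm d) h2 h3 h4 h5 ?_ ?_
  · exact fun e => hab (hinj a b h2 e)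
  · exact fun e => hbc (hinj b c e h3)

theorem Good.adj (h1 : StC1) (h : Good s t) {g g' : Fin 6 → Z5} (hm : ∀ i, g i ∈ Gam)
    (hi : ∀ i j, g i = g j → i = j) (hh : Hex g) (hm' : ∀ i, g' i ∈ Gam)
    (hi' : ∀ i j, g' i = g' j → i = j) (hh' : Hex g') {u v : Z5}
    (hu : ∃ i, g i = u) (hv : ∃ i, g i = v) (hu' : ∃ i, g' i = u) (hv' : ∃ i, g' i = v)
    (hcap : ∀ i j, g i = g' j → g i = u ∨ g i = v) : s u = s v ∨ t u = t v := by
  by_contra hc
  obtain ⟨hs, ht⟩ := not_or.1 hc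
  obtain ⟨i, rfl⟩ := hu
  obtain ⟨j, rfl⟩ := hv
  obtain ⟨i', hi1⟩ := hu'
  obtain ⟨j', hj1⟩ := hv'
  obtain ⟨k, l, hk, hl, hkl⟩ := (h.six h1 hm hi hh).2.2 i j hs
  obtain ⟨k', l', hk', hl', hkl'⟩ := (h.six h1 hm' hi' hh').2.2 i' j' (by rwa [hi1, hj1])
  rw [hi1] at hk'
  rw [hj1] at hl'
  by_cases e : t (g k) = t (g' k')
  · have e1 : g k = g' k' := h.inj _ (hm k) _ (hm' k') (by rw [hk, hk']) e
    have e2 : g l = g' l' := h.inj _ (hm l) _ (hm' l') (by rw [hl, hl']) (by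
      rw [← hkl, e, hkl'])
    have e3 : g k = g i := by
      rcases hcap k k' e1 with e3 | e3
      · exact e3
      · exact absurd (by rw [← hk, e3]) hs
    have e4 : g l = g j := by
      rcases hcap l l' e2 with e4 | e4
      · exact absurd (by rw [← hl, e4]) hs
      · exact e4
    exact ht (by rw [← e3, ← e4, hkl])
  · refine h.no4 (hm k) (hm' k') (hm' l') (hm l) (by rw [hk, hk']) hkl' (by rw [hl, hl'])
      hkl.symm e ?_
    rw [hk', hl']
    exact hs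

theorem Good.adj0 (h1 : StC1) (h : Good s t) {c c' : Fin 4} (hc : c ≠ c') :
    s (fl c 0) = s (fl c' 0) ∨ t (fl c 0) = t (fl c' 0) :=
  h.adj h1 (fun i => mem_Gam.2 (hx_mem1 c c' i)) (hx_inj1 c c' hc) (hx_hex1 c c')
    (fun i => mem_Gam.2 (hx_mem2 c c' i)) (hx_inj2 c c' hc) (hx_hex2 c c')
    ⟨0, rfl⟩ ⟨5, rfl⟩ ⟨0, rfl⟩ ⟨5, rfl⟩ (hx_cap12 c c' hc)

theorem Good.adj1 (h1 : StC1) (h : Good s t) {c r r' : Fin 4} (hr : c ≠ r) (hr' : c ≠ r')
    (hrr : r ≠ r') : s (fl c 0) = s (fl c 1) ∨ t (fl c 0) = t (fl c 1) :=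
  h.adj h1 (fun i => mem_Gam.2 (hx_mem1 c r i)) (hx_inj1 c r hr) (hx_hex1 c r)
    (fun i => mem_Gam.2 (hx_mem1 c r' i)) (hx_inj1 c r' hr') (hx_hex1 c r')
    ⟨0, rfl⟩ ⟨1, rfl⟩ ⟨0, rfl⟩ ⟨1, rfl⟩ (hx_cap11 c r r' hr hr' hrr)

/-- the case where the flags through the origin share their `s`-coordinate -/
theorem Good.main (h1 : StC1) (h : Good s t) (hs : ∀ c : Fin 4, s (fl c 0) = s (fl 0 0)) :
    False := by
  have hs1 : ∀ c r : Fin 4, c ≠ r → s (fl c 1) ≠ s (fl 0 0) := by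
    intro c r hr he
    refine (h.six h1 (fun i => mem_Gam.2 (hx_mem1 c r i)) (hx_inj1 c r hr) (hx_hex1 c r)).1
      0 1 5 (by decide) (by decide) (by decide) ?_ ?_
    · change s (fl c 0) = s (fl c 1)
      rw [hs c, he]
    · change s (fl c 1) = s (fl r 0)
      rw [hs r, he]
  have hne : ∀ c : Fin 4, s (fl c 1) ≠ s (fl 0 0) := by
    intro c
    by_cases hc : c = 0
    · exact hs1 c 1 (by rw [hc]; decide)
    · exact hs1 c 0 hc
  have ht : ∀ c : Fin 4, t (fl c 0) = t (fl c 1) := by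
    have aux : ∀ c : Fin 4, ∃ r r' : Fin 4, c ≠ r ∧ c ≠ r' ∧ r ≠ r' := by decide
    intro c
    obtain ⟨r, r', hr, hr', hrr⟩ := aux c
    exact (h.adj1 h1 hr hr' hrr).resolve_left fun e => hne c (by rw [← e, hs c])
  have key : ∀ c : Fin 4, c ≠ 1 → s (fl c 1) = s (fl 1 1) → False := by
    intro c hc he
    refine h.no4 (mem_Gam.2 (fl_mem1 1)) (mem_Gam.2 (fl_mem1 c)) (mem_Gam.2 (fl_mem0 c))
      (mem_Gam.2 (fl_mem0 1)) he.symm (ht c).symm (by rw [hs c, hs 1]) (ht 1) ?_ ?_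
    · rw [← ht c, ← ht 1]
      intro e
      exact hc (fl_inj0 c 1 (h.inj _ (mem_Gam.2 (fl_mem0 c)) _ (mem_Gam.2 (fl_mem0 1))
        (by rw [hs c, hs 1]) e.symm))
    · rw [hs c]
      exact hne c
  obtain ⟨j, hj, he⟩ := (h.mill ml (fun i => mem_Gam.2 (ml_mem i)) ml_mill).1 0
  change s (ml j) = s (fl 1 1) at he
  fin_cases j
  · exact hj rfl
  · exact hne 1 (he.symm.trans (hs 1))
  · exact hne 1 (he.symm.trans (hs 3))
  · exact key 3 (by decide) he
  · exact key 2 (by decide) he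
  · exact hne 1 (he.symm.trans (hs 2))
  · exact hne 1 (he.symm.trans (hs 0))
  · exact key 0 (by decide) he

theorem Good.false (h1 : StC1) (h : Good s t) : False := by
  have hm : ∀ c : Fin 4, fl c 0 ∈ Gam := fun c => mem_Gam.2 (fl_mem0 c)
  have tri : ∀ a b c : Fin 4, a ≠ b → a ≠ c → b ≠ c → s (fl a 0) = s (fl b 0) →
      s (fl a 0) = s (fl c 0) := by
    intro a b c hab hac hbc e
    rcases h.adj0 h1 hac with h2 | h2
    · exact h2
    · rcases h.adj0 h1 hbc with h3 | h3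
      · rw [e, h3]
      · exact absurd (fl_inj0 a b (h.inj _ (hm a) _ (hm b) e (by rw [h2, h3]))) hab
  have tri' : ∀ a b c : Fin 4, a ≠ b → a ≠ c → b ≠ c → t (fl a 0) = t (fl b 0) →
      t (fl a 0) = t (fl c 0) := by
    intro a b c hab hac hbc e
    rcases h.adj0 h1 hac with h2 | h2
    · rcases h.adj0 h1 hbc with h3 | h3
      · exact absurd (fl_inj0 a b (h.inj _ (hm a) _ (hm b) (by rw [h2, h3]) e)) hab
      · rw [e, h3]
    · exact h2
  rcases h.adj0 h1 (c := 0) (c' := 1) (by decide) with e | e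
  · refine h.main h1 fun c => ?_
    by_cases hc0 : c = 0
    · rw [hc0]
    · by_cases hc1 : c = 1
      · rw [hc1, e]
      · exact (tri 0 1 c (by decide) (fun x => hc0 x.symm) (fun x => hc1 x.symm) e).symm
  · refine h.swap.main h1 fun c => ?_
    by_cases hc0 : c = 0
    · rw [hc0]
    · by_cases hc1 : c = 1
      · rw [hc1, e]
      · exact (tri' 0 1 c (by decide) (fun x => hc0 x.symm) (fun x => hc1 x.symm) e).symm

end CoreAux

/-- (C) The combinatorial core. -/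
theorem stC (h : StC1) : StC :=
  ⟨CoreAux.Gam, fun s t h1 h2 h3 h4 =>
    CoreAux.Good.false (s := s) (t := t) h ⟨h1, h2, h3, h4⟩⟩

end PQ

end Pool.Agent.MP8b9
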