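import Mathlib
import Pool.Agent.Lib.MP_8b9ec4_lc.PQ.Stmts

/-!
# Hexagons: six edges of a bipartite graph without `C₄` and without leaves form a hexagon
-/

namespace Pool.Agent.MP8b9

namespace PQ

namespace C1aux

/-- Three different values together with partners fill `Fin 6`. -/
theorem fill {a b c a' b' c' : Fin 6} (h1 : a ≠ b) (h2 : a ≠ c) (h3 : a ≠ a') (h4 : a ≠ b')
    (h5 : a ≠ c') (h6 : b ≠ c) (h7 : b ≠ a') (h8 : b ≠ b') (h9 : b ≠ c') (h10 : c ≠ a')
    (h11 : c ≠ b') (h12 : c ≠ c') (h13 : a' ≠ b') (h14 : a' ≠ c') (h15 : b' ≠ c') (x : Fin 6) :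
    x = a ∨ x = b ∨ x = c ∨ x = a' ∨ x = b' ∨ x = c' := by
  have hc : ({a, b, c, a', b', c'} : Finset (Fin 6)).card = 6 := by
    rw [Finset.card_insert_of_notMem (by simp [*]), Finset.card_insert_of_notMem (by simp [*]),
      Finset.card_insert_of_notMem (by simp [*]), Finset.card_insert_of_notMem (by simp [*]),
      Finset.card_insert_of_notMem (by simp [*]), Finset.card_singleton]
  have hu : ({a, b, c, a', b', c'} : Finset (Fin 6)) = Finset.univ :=
    Finset.eq_univ_of_card _ (by rw [hc]; rfl)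
  have := Finset.mem_univ x
  rw [← hu] at this
  simpa using this

/-- No value is taken three times by `s`. -/
theorem deg {s t : Fin 6 → Cant} (inj : ∀ i j, s i = s j → t i = t j → i = j)
    (c4 : ∀ a b c d : Fin 6, a ≠ b → b ≠ c → s a = s b → t b = t c → s c = s d → t d = t a → False)
    (hs : Twice s) (ht : Twice t) (i j k : Fin 6) (hij : i ≠ j) (hjk : j ≠ k) (hik : i ≠ k)
    (e1 : s i = s j) (e2 : s j = s k) : False := by
  obtain ⟨i', hi', ei⟩ := ht i
  obtain ⟨j', hj', ej⟩ := ht j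
  obtain ⟨k', hk', ek⟩ := ht k
  have tij : t i ≠ t j := fun h => hij (inj _ _ e1 h)
  have tjk : t j ≠ t k := fun h => hjk (inj _ _ e2 h)
  have tik : t i ≠ t k := fun h => hik (inj _ _ (e1.trans e2) h)
  have key : ∀ x x' y y' : Fin 6, x ≠ y → x' ≠ x → s x = s y → t x' = t x → t y' = t y →
      s x' = s y' → x' ≠ y' → False := by
    intro x x' y y' hxy hx' hs1 ht1 ht2 hs2 hne
    exact c4 y' x' x y hne.symm hx' hs2.symm ht1 hs1 ht2.symm
  obtain ⟨m, hm, em⟩ := hs i'
  have hne : ∀ {x y : Fin 6}, t x ≠ t y → x ≠ y := fun h h' => h (by rw [h'])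
  have a1 : i ≠ j' := hne (by rw [ej]; exact tij)
  have a2 : i ≠ k' := hne (by rw [ek]; exact tik)
  have a3 : j ≠ i' := hne (by rw [ei]; exact tij.symm)
  have a4 : j ≠ k' := hne (by rw [ek]; exact tjk)
  have a5 : k ≠ i' := hne (by rw [ei]; exact tik.symm)
  have a6 : k ≠ j' := hne (by rw [ej]; exact tjk.symm)
  have a7 : i' ≠ j' := hne (by rw [ei, ej]; exact tij)
  have a8 : i' ≠ k' := hne (by rw [ei, ek]; exact tik)
  have a9 : j' ≠ k' := hne (by rw [ej, ek]; exact tjk)
  have hsi : s i ≠ s i' := fun h => hi' (inj _ _ h.symm ei)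
  rcases fill hij hik hi'.symm a1 a2 hjk a3 hj'.symm a4 a5 a6 hk'.symm a7 a8 a9 m with
    h | h | h | h | h | h
  · subst h; exact hsi em
  · subst h; exact hsi (e1.trans em)
  · subst h; exact hsi ((e1.trans e2).trans em)
  · exact hm h
  · subst h
    exact key i i' j m hij hi' e1 ei ej em.symm a7
  · subst h
    exact key i i' k m hik hi' (e1.trans e2) ei ek em.symm a8

/-- Two values on the same side have a common neighbour. -/
theorem nbr {s t : Fin 6 → Cant} (inj : ∀ i j, s i = s j → t i = t j → i = j)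
    (hs : Twice s) (ht : Twice t) (i j : Fin 6) (hij : s i ≠ s j) :
    ∃ k l, s k = s i ∧ s l = s j ∧ t k = t l := by
  by_contra hcon
  push Not at hcon
  obtain ⟨i', hi', ei⟩ := hs i
  obtain ⟨j', hj', ej⟩ := hs j
  have t1 : t i ≠ t i' := fun h => hi' (inj _ _ ei h.symm)
  have t2 : t j ≠ t j' := fun h => hj' (inj _ _ ej h.symm)
  have t3 : t i ≠ t j := hcon i j rfl rfl
  have t4 : t i ≠ t j' := hcon i j' rfl ej
  have t5 : t i' ≠ t j := hcon i' j ei rfl
  have t6 : t i' ≠ t j' := hcon i' j' ei ej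
  obtain ⟨a, ha, ea⟩ := ht i
  obtain ⟨b, hb, eb⟩ := ht i'
  obtain ⟨c, hc, ec⟩ := ht j
  have hne : ∀ {x y : Fin 6}, t x ≠ t y → x ≠ y := fun h h' => h (by rw [h'])
  have hf := fill (a := i) (b := i') (c := j) (a' := a) (b' := b) (c' := c)
    (hne t1) (hne t3) ha.symm (hne (by rw [eb]; exact t1)) (hne (by rw [ec]; exact t3))
    (hne t5) (hne (by rw [ea]; exact t1.symm)) hb.symm (hne (by rw [ec]; exact t5))
    (hne (by rw [ea]; exact t3.symm)) (hne (by rw [eb]; exact t5.symm)) hc.symm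
    (hne (by rw [ea, eb]; exact t1)) (hne (by rw [ea, ec]; exact t3))
    (hne (by rw [eb, ec]; exact t5)) j'
  rcases hf with h | h | h | h | h | h
  · exact t4 (by rw [h])
  · exact t6 (by rw [h])
  · exact t2 (by rw [h])
  · exact t4 (by rw [h, ea])
  · exact t6 (by rw [h, eb])
  · exact t2 (by rw [h, ec])

end C1aux

/-- (C1) -/
theorem stC1 : StC1 := by
  intro s t inj c4 hs ht
  refine ⟨?_, ?_, ?_⟩
  · intro i j k hij hjk hik e1 e2
    exact C1aux.deg inj c4 hs ht i j k hij hjk hik e1 e2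
  · intro i j k hij hjk hik e1 e2
    refine C1aux.deg (s := t) (t := s) (fun i j h1 h2 => inj i j h2 h1) ?_ ht hs i j k hij hjk hik
      e1 e2
    intro a b c d hab hbc h1 h2 h3 h4
    refine c4 b c d a hbc ?_ h2 h3 h4 h1
    intro hcd
    subst hcd
    exact hab (inj a b (h4.symm.trans h2.symm) h1)
  · intro i j hij
    exact C1aux.nbr inj hs ht i j hij

end PQ

end Pool.Agent.MP8b9
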