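import Pool.Agent.Lib.MP_8b9ec4_lc.PQ.Stmts

/-!
Project PQ, module L: small copies of finite configurations.
-/

namespace Pool.Agent.MP8b9

namespace PQ

open MeasureTheory Set Filter Topology

namespace LAux

/-- The linear part of `mv`. -/
def mat (a b : ℝ) : Matrix (Fin 5) (Fin 5) ℝ :=
  !![1, 0, 0, 0, 0; 0, 1, 0, 0, 0; 0, 0, 1, 0, 0; a, 0, 0, 1, 0; b, 0, 0, 0, 1]

theorem det_mat (a b : ℝ) : (mat a b).det = 1 := by
  unfold mat
  simp [Matrix.det_succ_row_zero, Fin.sum_univ_succ, Fin.succAbove]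

theorem mv_eq (ε : ℝ) (γ : Fin 5 → ℤ) : mv ε γ = fun f =>
    Matrix.toLin' (mat (-(ε * γ 1)) (-(ε * γ 2))) f +
      ![ε * γ 0, ε * γ 1, ε * γ 2, ε ^ 2 * γ 3, ε ^ 2 * γ 4] := by
  funext f i
  fin_cases i <;> simp [mv, mat, dotProduct, Fin.sum_univ_succ] <;> ring

theorem mp (ε : ℝ) (γ : Fin 5 → ℤ) : MeasurePreserving (mv ε γ) volume volume := by
  rw [mv_eq]
  have h1 : MeasurePreserving (Matrix.toLin' (mat (-(ε * γ 1)) (-(ε * γ 2))))
      (volume : Measure Fl) volume := by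
    refine ⟨(LinearMap.continuous_of_finiteDimensional _).measurable, ?_⟩
    rw [Real.map_matrix_volume_pi_eq_smul_volume_pi (by rw [det_mat]; exact one_ne_zero), det_mat]
    simp
  exact (measurePreserving_add_right volume _).comp h1

/-- the displacement is small on bounded sets -/
theorem dist_mv (M : ℝ) (Γ : Finset (Fin 5 → ℤ)) (r : ℝ) (hr : 0 < r) :
    ∃ ε : ℝ, 0 < ε ∧ ∀ f : Fl, |f 0| ≤ M → ∀ γ ∈ Γ, dist (mv ε γ f) f ≤ r := by
  obtain ⟨N, hN⟩ : ∃ N : ℝ, 1 ≤ N ∧ ∀ γ ∈ Γ, ∀ i, |(γ i : ℝ)| ≤ N := by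
    refine ⟨1 + ∑ γ ∈ Γ, ∑ i, |(γ i : ℝ)|, ?_, fun γ hγ i => ?_⟩
    · have : 0 ≤ ∑ γ ∈ Γ, ∑ i, |(γ i : ℝ)| :=
        Finset.sum_nonneg fun γ _ => Finset.sum_nonneg fun i _ => abs_nonneg _
      linarith
    · have h1 : |(γ i : ℝ)| ≤ ∑ i, |(γ i : ℝ)| :=
        Finset.single_le_sum (f := fun i => |(γ i : ℝ)|) (fun i _ => abs_nonneg _)
          (Finset.mem_univ i)
      have h2 : ∑ i, |(γ i : ℝ)| ≤ ∑ γ ∈ Γ, ∑ i, |(γ i : ℝ)| :=
        Finset.single_le_sum (f := fun γ => ∑ i, |((γ : Fin 5 → ℤ) i : ℝ)|)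
          (fun γ _ => Finset.sum_nonneg fun i _ => abs_nonneg _) hγ
      linarith
  set P : ℝ := N * (1 + |M|) with hP
  have hP1 : 1 ≤ P := by
    rw [hP]
    nlinarith [hN.1, abs_nonneg M]
  refine ⟨min 1 (r / (2 * P)), by positivity, fun f hf γ hγ => ?_⟩
  set ε := min 1 (r / (2 * P)) with hε
  have hε0 : 0 < ε := by positivity
  have hε1 : ε ≤ 1 := min_le_left _ _
  have hε2 : ε * (2 * P) ≤ r := by
    have : ε ≤ r / (2 * P) := min_le_right _ _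
    rwa [le_div_iff₀ (by positivity)] at this
  have hN' := hN.2 γ hγ
  have hNP : N ≤ P := by
    rw [hP]
    nlinarith [hN.1, abs_nonneg M]
  have hsmall : ∀ i, |ε * (γ i : ℝ)| ≤ r := by
    intro i
    rw [abs_mul, abs_of_pos hε0]
    nlinarith [hN' i, abs_nonneg (γ i : ℝ)]
  have hbig : ∀ i j, |ε ^ 2 * (γ i : ℝ) - ε * γ j * f 0| ≤ r := by
    intro i j
    have h1 : |ε ^ 2 * (γ i : ℝ)| ≤ ε * P := by
      rw [abs_mul, abs_of_pos (by positivity : 0 < ε ^ 2)]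
      have h3 : ε ^ 2 ≤ ε := by nlinarith
      exact mul_le_mul h3 ((hN' i).trans hNP) (abs_nonneg _) hε0.le
    have h2 : |ε * γ j * f 0| ≤ ε * P := by
      rw [mul_assoc, abs_mul, abs_of_pos hε0, abs_mul]
      refine mul_le_mul_of_nonneg_left ?_ hε0.le
      rw [hP]
      refine mul_le_mul (hN' j) (hf.trans ?_) (abs_nonneg _) (by linarith [hN.1])
      linarith [le_abs_self M]
    calc |ε ^ 2 * (γ i : ℝ) - ε * γ j * f 0| ≤ |ε ^ 2 * (γ i : ℝ)| + |ε * γ j * f 0| :=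
          abs_sub _ _
      _ ≤ ε * P + ε * P := add_le_add h1 h2
      _ ≤ r := by linarith
  rw [dist_pi_le_iff hr.le]
  intro i
  rw [Real.dist_eq]
  fin_cases i
  · simpa [mv] using hsmall 0
  · simpa [mv] using hsmall 1
  · simpa [mv] using hsmall 2
  · have h := hbig 3 1
    have h' : mv ε γ f 3 - f 3 = ε ^ 2 * (γ 3 : ℝ) - ε * γ 1 * f 0 := by
      simp [mv]; ring
    change |mv ε γ f 3 - f 3| ≤ r
    rw [h']
    exact h
  · have h := hbig 4 2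
    have h' : mv ε γ f 4 - f 4 = ε ^ 2 * (γ 4 : ℝ) - ε * γ 2 * f 0 := by
      simp [mv]; ring
    change |mv ε γ f 4 - f 4| ≤ r
    rw [h']
    exact h

end LAux

theorem stL : StL := by
  intro S hS hS0 Γ
  classical
  obtain ⟨K, hKS, hK, hK0⟩ := hS.exists_lt_isCompact (pos_iff_ne_zero.2 hS0)
  have hKfin : volume K ≠ ⊤ := hK.measure_lt_top.ne
  have hKm : MeasurableSet K := hK.isClosed.measurableSet
  set c : ENNReal := volume K / (Γ.card + 1) with hc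
  have hc0 : 0 < c := ENNReal.div_pos hK0.ne' (by simp)
  have hlt : volume K < volume K + c := ENNReal.lt_add_right hKfin hc0.ne'
  have h1 := (tendsto_measure_cthickening_of_isCompact (μ := (volume : Measure Fl)) hK)
  have h2 : ∀ᶠ r in 𝓝 (0 : ℝ), volume (Metric.cthickening r K) < volume K + c :=
    h1.eventually (gt_mem_nhds hlt)
  obtain ⟨r, hr, hr0⟩ := ((h2.filter_mono nhdsWithin_le_nhds).and
    (self_mem_nhdsWithin : ∀ᶠ r in 𝓝[>] (0 : ℝ), r ∈ Ioi 0)).exists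
  have hr0' : (0 : ℝ) < r := hr0
  obtain ⟨M, hM⟩ : ∃ M : ℝ, ∀ f ∈ K, |f 0| ≤ M := by
    obtain ⟨M, hM⟩ := hK.isBounded.exists_norm_le
    exact ⟨M, fun f hf => (norm_le_pi_norm f 0).trans (hM f hf)⟩
  obtain ⟨ε, hε, hd⟩ := LAux.dist_mv M Γ r hr0'
  refine ⟨ε, hε, ?_⟩
  have hbad : ∀ γ ∈ Γ, volume (K \ mv ε γ ⁻¹' K) ≤ c := by
    intro γ hγ
    have hsub : K \ mv ε γ ⁻¹' K ⊆ mv ε γ ⁻¹' (Metric.cthickening r K \ K) := by
      intro f hf
      refine ⟨?_, hf.2⟩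
      exact Metric.mem_cthickening_of_dist_le _ f r K hf.1 (hd f (hM f hf.1) γ hγ)
    refine (measure_mono hsub).trans ?_
    have hm : MeasurableSet (Metric.cthickening r K) := Metric.isClosed_cthickening.measurableSet
    rw [(LAux.mp ε γ).measure_preimage (hm.diff hKm).nullMeasurableSet,
      measure_sdiff (Metric.self_subset_cthickening K) hKm.nullMeasurableSet hKfin]
    exact tsub_le_iff_left.2 hr.le
  have hlt2 : volume (⋃ γ ∈ Γ, K \ mv ε γ ⁻¹' K) < volume K := by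
    refine (measure_biUnion_finset_le Γ _).trans_lt ?_
    refine (Finset.sum_le_sum hbad).trans_lt ?_
    rw [Finset.sum_const, nsmul_eq_mul, hc, ← mul_div_assoc]
    rw [ENNReal.div_lt_iff (Or.inl (by simp)) (Or.inl (by simp)), mul_comm]
    refine ENNReal.mul_lt_mul_right hK0.ne' hKfin ?_
    exact_mod_cast Nat.lt_succ_self _
  obtain ⟨f, hfK, hf⟩ : ∃ f ∈ K, f ∉ ⋃ γ ∈ Γ, K \ mv ε γ ⁻¹' K := by
    by_contra hcon
    push Not at hcon
    exact absurd (measure_mono hcon) (not_le.2 hlt2)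
  refine ⟨f, fun γ hγ => hKS ?_⟩
  by_contra hcon
  exact hf (mem_biUnion hγ ⟨hfK, hcon⟩)

end PQ

end Pool.Agent.MP8b9
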