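import Mathlib
import Pool.Agent.Lib.MP_8b9ec4_lc.PQ.Stmts

/-!
# PQ, module N: there are no four balanced flags
-/

namespace Pool.Agent.MP8b9

namespace PQ

namespace NAux

theorem four (a b c d e : Fin 4) (h1 : a ≠ b) (h2 : a ≠ c) (h3 : a ≠ d) (h4 : b ≠ c) (h5 : b ≠ d)
    (h6 : c ≠ d) : e = a ∨ e = b ∨ e = c ∨ e = d := by
  revert a b c d e
  decide

theorem eq_of_line {f g : Fl} (h0 : f 0 = g 0) (h : cL f = cL g) : f = g := by
  unfold cL at h
  simp only [Prod.mk.injEq] at h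
  obtain ⟨h1, h2, h3, h4⟩ := h
  funext i
  fin_cases i
  · exact h0
  · exact h1
  · exact h2
  · exact h3
  · exact h4

theorem cross {a b a' b' x y : ℝ} (h1 : a * x + b = a' * x + b') (h2 : a * y + b = a' * y + b')
    (hxy : x ≠ y) : a = a' ∧ b = b' := by
  have h3 : (a - a') * (x - y) = 0 := by linarith
  have h4 : a - a' = 0 := by
    rcases mul_eq_zero.1 h3 with h | h
    · exact h
    · exact absurd (sub_eq_zero.1 h) hxy
  have h5 : a = a' := sub_eq_zero.1 h4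
  subst h5
  exact ⟨rfl, by linarith⟩

theorem key {f0 fj fk fm : Fl} (hA : cA f0 = cA fj) (hB : cB f0 = cB fj) (hA' : cA fk = cA fm)
    (hB' : cB fk = cB fm) (hL : cL f0 = cL fk) (hL' : cL fj = cL fm) (hx : f0 0 ≠ fk 0) :
    f0 = fj := by
  unfold cA at hA hA'
  unfold cB at hB hB'
  unfold cL at hL hL'
  simp only [Prod.mk.injEq] at hA hB hA' hB' hL hL'
  obtain ⟨l1, l2, l3, l4⟩ := hL
  obtain ⟨m1, m2, m3, m4⟩ := hL'
  have e1 : f0 1 * f0 0 + f0 3 = fj 1 * f0 0 + fj 3 := by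
    rw [hA.2, hA.1]
  have e2 : f0 1 * fk 0 + f0 3 = fj 1 * fk 0 + fj 3 := by
    rw [l1, l3, m1, m3, hA'.2, hA'.1]
  have e3 : f0 2 * f0 0 + f0 4 = fj 2 * f0 0 + fj 4 := by
    rw [hB.2, hB.1]
  have e4 : f0 2 * fk 0 + f0 4 = fj 2 * fk 0 + fj 4 := by
    rw [l2, l4, m2, m4, hB'.2, hB'.1]
  obtain ⟨p1, p3⟩ := cross e1 e2 hx
  obtain ⟨p2, p4⟩ := cross e3 e4 hx
  funext i
  fin_cases i
  · exact hA.1
  · exact p1
  · exact p2
  · exact p3
  · exact p4

end NAux

theorem stN : StN := by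
  intro f hf hA hB hL
  choose a ha1 ha2 using hA
  choose b hb1 hb2 using hB
  choose l hl1 hl2 using hL
  have hax : ∀ i, f (a i) 0 = f i 0 := fun i => congrArg Prod.fst (ha2 i)
  have hbx : ∀ i, f (b i) 0 = f i 0 := fun i => congrArg Prod.fst (hb2 i)
  have hlx : ∀ i, f (l i) 0 ≠ f i 0 := fun i h => hl1 i (hf (NAux.eq_of_line h (hl2 i)))
  have hab : ∀ i, b i = a i := by
    intro i
    by_contra hne
    have h1 : i ≠ a i := (ha1 i).symm
    have h2 : i ≠ b i := (hb1 i).symm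
    have h3 : i ≠ l i := (hl1 i).symm
    have h4 : a i ≠ b i := fun h => hne h.symm
    have h5 : a i ≠ l i := fun h => hlx i (by rw [← h]; exact hax i)
    have h6 : b i ≠ l i := fun h => hlx i (by rw [← h]; exact hbx i)
    rcases NAux.four i (a i) (b i) (l i) (a (l i)) h1 h2 h3 h4 h5 h6 with h | h | h | h
    · exact hlx i (by rw [← hax (l i), h])
    · exact hlx i (by rw [← hax (l i), h]; exact hax i)
    · exact hlx i (by rw [← hax (l i), h]; exact hbx i)
    · exact ha1 _ h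
  have h0j : (0 : Fin 4) ≠ a 0 := (ha1 0).symm
  have h0k : (0 : Fin 4) ≠ l 0 := (hl1 0).symm
  have h0m : (0 : Fin 4) ≠ l (a 0) := fun h => hlx (a 0) (by rw [← h]; exact (hax 0).symm)
  have hjk : a 0 ≠ l 0 := fun h => hlx 0 (by rw [← h]; exact hax 0)
  have hjm : a 0 ≠ l (a 0) := (hl1 _).symm
  have hkm : l 0 ≠ l (a 0) := by
    intro h
    have h1 : cL (f (a 0)) = cL (f 0) := by
      have h2 : cL (f (l (a 0))) = cL (f (a 0)) := hl2 (a 0)
      have h3 : cL (f (l 0)) = cL (f 0) := hl2 0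
      rw [← h2, ← h, h3]
    exact h0j (hf (NAux.eq_of_line (hax 0) h1)).symm
  have hkx : f (a (l 0)) 0 = f (l 0) 0 := hax (l 0)
  have hm : a (l 0) = l (a 0) := by
    rcases NAux.four 0 (a 0) (l 0) (l (a 0)) (a (l 0)) h0j h0k h0m hjk hjm hkm with h | h | h | h
    · exact absurd (by rw [← hkx, h]) (hlx 0)
    · exact absurd (by rw [← hkx, h]; exact hax 0) (hlx 0)
    · exact absurd h (ha1 _)
    · exact h
  have hfin := NAux.key (f0 := f 0) (fj := f (a 0)) (fk := f (l 0)) (fm := f (l (a 0)))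
    (ha2 0).symm (by rw [← hab 0]; exact (hb2 0).symm) (by rw [← hm]; exact (ha2 _).symm)
    (by rw [← hm, ← hab]; exact (hb2 _).symm) (hl2 0).symm (hl2 _).symm (fun h => hlx 0 h.symm)
  exact h0j (hf hfin)

end PQ

end Pool.Agent.MP8b9
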