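import Pool.Agent.Lib.MP_8b9ec4_lc.PQ.Stmts

/-!
# The partition of a group into two naively Haar null sets
-/

namespace Pool.Agent.MP8b9

namespace PQ

namespace PP

open MeasureTheory Set Cardinal

/-- Under the continuum hypothesis a standard Borel space has a total relation all of whose
segments are countable. -/
theorem segments {G : Type} [MeasurableSpace G] [StandardBorelSpace G]
    (hc : Cardinal.continuum.{0} = Cardinal.aleph 1) :
    ∃ r : (G × G) → (G × G) → Prop, (∀ a b, r a b ∨ a = b ∨ r b a) ∧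
      ∀ a, {b | r b a}.Countable := by
  obtain ⟨r, wo, hr⟩ := Cardinal.exists_ord_eq (G × G)
  refine ⟨r, fun a b => ?_, fun a => ?_⟩
  · exact trichotomous_of r a b
  · have h1 : #G ≤ Cardinal.continuum.{0} := by
      obtain ⟨f, hf⟩ := MeasureTheory.exists_measurableEmbedding_real G
      rw [← Cardinal.mk_real]
      exact Cardinal.mk_le_of_injective hf.injective
    have h2 : #(G × G) ≤ Cardinal.continuum.{0} := by
      have : #(G × G) = #G * #G := by simp [Cardinal.mk_prod]
      rw [this]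
      calc #G * #G ≤ Cardinal.continuum.{0} * Cardinal.continuum.{0} := mul_le_mul' h1 h1
        _ = _ := Cardinal.continuum_mul_self
    have h3 : #{b | r b a} < #(G × G) := Cardinal.card_typein_lt a hr
    have h4 : #{b | r b a} < Cardinal.aleph 1 := by
      rw [← hc]
      exact lt_of_lt_of_le h3 h2
    rw [Cardinal.lt_aleph_one_iff, Cardinal.le_aleph0_iff_set_countable] at h4
    exact h4

section images

variable {G : Type} [Group G]

theorem img_img (g h g' h' : G) (X : Set G) :
    (fun x => g * x * h) '' ((fun x => g' * x * h') '' X) =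
      (fun x => (g * g') * x * (h' * h)) '' X := by
  rw [image_image]
  congr 1
  ext x
  group

theorem img_cancel (g h : G) (X : Set G) :
    (fun x => g * x * h) '' ((fun x => g⁻¹ * x * h⁻¹) '' X) = X := by
  rw [img_img]
  simp

theorem inj (g h : G) : Function.Injective (fun x : G => g * x * h) := by
  intro x y hxy
  simpa using hxy

end images

end PP

open MeasureTheory Set in
theorem stP : StP := by
  intro G _ _ _ _ _ _ hc hs
  obtain ⟨μ₀, μ₁, D, E, h0, h1, -, -, hD, hE, hmE, hmD⟩ := hs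
  obtain ⟨r, htri, hcount⟩ := PP.segments (G := G) hc
  have hcount' : ∀ a : G × G, {b | r b a ∨ b = a}.Countable := by
    intro a
    have : {b | r b a ∨ b = a} = {b | r b a} ∪ {a} := by
      ext b; simp only [mem_ofPred_eq, mem_union, mem_singleton_iff]
    rw [this]
    exact (hcount a).union (countable_singleton a)
  let tr : G × G → Set G → Set G := fun a X => (fun x => a.1 * x * a.2) '' X
  let S : Set G := ⋃ a : G × G, (tr a E \ ⋃ b ∈ {b | r b a ∨ b = a}, tr b D)
  have hnull : ∀ (μ : Measure G) (X : Set G), (∀ g h : G, μ ((fun x => g * x * h) '' X) = 0) →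
      ∀ (c : G × G) (g h : G), μ ((fun x => g * x * h) '' (⋃ b ∈ {b | r b c ∨ b = c}, tr b X)) = 0 := by
    intro μ X hX c g h
    rw [image_iUnion₂]
    refine (measure_biUnion_null_iff (hcount' c)).2 fun b _ => ?_
    show μ ((fun x => g * x * h) '' ((fun x => b.1 * x * b.2) '' X)) = 0
    rw [PP.img_img]
    exact hX _ _
  refine ⟨S, ⟨μ₀, h0, fun g h => ?_⟩, ⟨μ₁, h1, fun g h => ?_⟩⟩
  · -- the set `S` is null for `μ₀`
    have hsub : S ⊆ (⋃ b ∈ {b | r b (g⁻¹, h⁻¹) ∨ b = (g⁻¹, h⁻¹)}, tr b E) ∪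
        (tr (g⁻¹, h⁻¹) D)ᶜ := by
      intro x hx
      obtain ⟨a, hxa, hxb⟩ := mem_iUnion.1 hx
      rcases htri a (g⁻¹, h⁻¹) with h' | h' | h'
      · exact Or.inl (mem_biUnion (Or.inl h') hxa)
      · exact Or.inl (mem_biUnion (Or.inr h') hxa)
      · refine Or.inr fun hxd => hxb (mem_biUnion (Or.inl h') hxd)
    have hsub' : (fun x => g * x * h) '' S ⊆
        ((fun x => g * x * h) '' (⋃ b ∈ {b | r b (g⁻¹, h⁻¹) ∨ b = (g⁻¹, h⁻¹)}, tr b E)) ∪ Dᶜ := by
      rintro _ ⟨x, hx, rfl⟩
      rcases hsub hx with h' | h'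
      · exact Or.inl ⟨x, h', rfl⟩
      · refine Or.inr fun hd => h' ?_
        have : g * x * h ∈ (fun x => g * x * h) '' (tr (g⁻¹, h⁻¹) D) := by
          show g * x * h ∈ (fun x => g * x * h) '' ((fun x => g⁻¹ * x * h⁻¹) '' D)
          rw [PP.img_cancel]
          exact hd
        obtain ⟨y, hy, hxy⟩ := this
        rwa [← PP.inj g h hxy]
    refine measure_mono_null hsub' ?_
    exact measure_union_null (hnull μ₀ E hmE _ _ _) hD
  · have hsub : Sᶜ ⊆ (⋃ b ∈ {b | r b (g⁻¹, h⁻¹) ∨ b = (g⁻¹, h⁻¹)}, tr b D) ∪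
        (tr (g⁻¹, h⁻¹) E)ᶜ := by
      intro x hx
      by_contra hcon
      rw [mem_union, not_or, notMem_compl_iff] at hcon
      exact hx (mem_iUnion.2 ⟨(g⁻¹, h⁻¹), hcon.2, hcon.1⟩)
    have hsub' : (fun x => g * x * h) '' Sᶜ ⊆
        ((fun x => g * x * h) '' (⋃ b ∈ {b | r b (g⁻¹, h⁻¹) ∨ b = (g⁻¹, h⁻¹)}, tr b D)) ∪ Eᶜ := by
      rintro _ ⟨x, hx, rfl⟩
      rcases hsub hx with h' | h'
      · exact Or.inl ⟨x, h', rfl⟩
      · refine Or.inr fun hd => h' ?_
        have : g * x * h ∈ (fun x => g * x * h) '' (tr (g⁻¹, h⁻¹) E) := by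
          show g * x * h ∈ (fun x => g * x * h) '' ((fun x => g⁻¹ * x * h⁻¹) '' E)
          rw [PP.img_cancel]
          exact hd
        obtain ⟨y, hy, hxy⟩ := this
        rwa [← PP.inj g h hxy]
    refine measure_mono_null hsub' ?_
    exact measure_union_null (hnull μ₁ D hmD _ _ _) hE

end PQ

end Pool.Agent.MP8b9
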