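import Mathlib
import Pool.Agent.Lib.MP_8b9ec4_lc.PQ.Stmts

/-!
# Rectangles in sets of positive measure
-/

namespace Pool.Agent.MP8b9

namespace PQ

open MeasureTheory Set

namespace RAux

theorem level {ν : Measure Cant} (f : Cant → ENNReal) (hf : Measurable f)
    (h : ∫⁻ s, f s ∂ν ≠ 0) : ∃ c : ENNReal, c ≠ 0 ∧ ν {s | c ≤ f s} ≠ 0 := by
  by_contra hcon
  push Not at hcon
  apply h
  rw [lintegral_eq_zero_iff hf]
  have h1 : ν {s | ¬ (f s = (0 : Cant → ENNReal) s)} = 0 := by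
    refine measure_mono_null (t := ⋃ n : ℕ, {s | ((n : ENNReal))⁻¹ ≤ f s}) ?_ ?_
    · intro s hs
      obtain ⟨n, hn⟩ := ENNReal.exists_inv_nat_lt hs
      exact mem_iUnion.mpr ⟨n, hn.le⟩
    · rw [measure_iUnion_null_iff]
      intro n
      exact hcon _ (ENNReal.inv_ne_zero.mpr (ENNReal.natCast_ne_top n))
  exact h1

end RAux

/-- (R) Rectangles. -/
theorem stR : StR := by
  intro ν _ hat S hS hpos
  have hna : NullSingletonClass ν := ⟨hat⟩
  rw [Measure.prod_apply hS] at hpos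
  obtain ⟨c, hc, hA⟩ := RAux.level (fun s => ν (Prod.mk s ⁻¹' S))
    (measurable_measure_prodMk_left hS) hpos
  have hinf : {s | c ≤ ν (Prod.mk s ⁻¹' S)}.Infinite := fun hfin => hA (hfin.measure_zero ν)
  obtain ⟨N, hN⟩ := ENNReal.exists_nat_mul_gt hc ENNReal.one_ne_top
  obtain ⟨B, hB, hcard⟩ := hinf.exists_subset_card_eq N
  have hnd : ¬ (B : Set Cant).Pairwise (Function.onFun (AEDisjoint ν)
      fun s => Prod.mk s ⁻¹' S) := by
    intro hd
    have h1 := measure_biUnion_finset₀ hd fun b _ =>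
      (measurable_prodMk_left hS).nullMeasurableSet
    have h2 : ν (⋃ b ∈ B, Prod.mk b ⁻¹' S) ≤ 1 := prob_le_one
    rw [h1] at h2
    have h3 : (N : ENNReal) * c ≤ ∑ b ∈ B, ν (Prod.mk b ⁻¹' S) := by
      have h4 := Finset.card_nsmul_le_sum B (fun b => ν (Prod.mk b ⁻¹' S)) c
        fun b hb => hB (Finset.mem_coe.mpr hb)
      rwa [hcard, nsmul_eq_mul] at h4
    exact absurd (hN.trans_le (h3.trans h2)) (lt_irrefl _)
  unfold Set.Pairwise at hnd
  push Not at hnd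
  obtain ⟨s, -, s', -, hne, hd⟩ := hnd
  have h5 : ¬ (Prod.mk s ⁻¹' S ∩ Prod.mk s' ⁻¹' S).Subsingleton := by
    intro hsub
    exact hd (hsub.measure_zero ν)
  rw [Set.not_subsingleton_iff] at h5
  obtain ⟨t, ht, t', ht', htt⟩ := h5
  exact ⟨s, s', t, t', hne, htt, ht.1, ht'.1, ht.2, ht'.2⟩

end PQ

end Pool.Agent.MP8b9
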