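import Pool.Agent.Lib.MP_8b9ec4_lc.Basic
import Pool.Agent.Lib.MP_8b9ec4_lc.PQ.Stmts

/-!
# Orthogonal pairs of measures in uncountable Polish groups: assembly
-/

namespace Pool.Agent.MP8b9

namespace PQ

open MeasureTheory Set

namespace SS

theorem injective_letters {f f' : Fl} (hA : cA f = cA f') (hL : cL f = cL f') : f = f' := by
  simp only [cA, cL, Prod.mk.injEq] at hA hL
  ext i
  fin_cases i
  · exact hA.1
  · exact hL.1
  · exact hL.2.1
  · exact hL.2.2.1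
  · exact hL.2.2.2

theorem measurable_cA : Measurable cA := by
  unfold cA
  fun_prop

theorem measurable_cB : Measurable cB := by
  unfold cB
  fun_prop

theorem measurable_cL : Measurable cL := by
  unfold cL
  fun_prop

theorem Twice.of_comp {n : ℕ} {T U : Type*} {e : T → U} (he : Function.Injective e)
    {f : Fin n → T} (h : Twice fun i => e (f i)) : Twice f := by
  intro i
  obtain ⟨j, hj, h'⟩ := h i
  exact ⟨j, hj, he h'⟩

section

variable {G : Type} [Group G] (σ : ℕ → Cant → G) (e₂ : ℝ × ℝ → Cant) (e₄ : ℝ × ℝ × ℝ × ℝ → Cant)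

/-- The product of letters of a flag. -/
def FF (f : Fl) : G := wF σ (e₂ (cA f), e₂ (cB f), e₄ (cL f))

variable {σ e₂ e₄}

theorem FF_injective (hW : Words σ) (h₂ : Function.Injective e₂) (h₄ : Function.Injective e₄) :
    Function.Injective (FF σ e₂ e₄) := by
  intro f f' h
  have := hW.f1 h
  simp only [Prod.mk.injEq] at this
  exact injective_letters (h₂ this.1) (h₄ this.2.2)

theorem quad (hN : StN) (hW : Words σ) (h₂ : Function.Injective e₂) (h₄ : Function.Injective e₄)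
    (f : Fin 4 → Fl) (hf : Function.Injective f)
    (h : (FF σ e₂ e₄ (f 0))⁻¹ * FF σ e₂ e₄ (f 1) * (FF σ e₂ e₄ (f 2))⁻¹ * FF σ e₂ e₄ (f 3) = 1) :
    False := by
  obtain ⟨a, b, c⟩ := hW.f4 (fun i => (e₂ (cA (f i)), e₂ (cB (f i)), e₄ (cL (f i)))) h
  exact hN f hf (Twice.of_comp h₂ a) (Twice.of_comp h₂ b) (Twice.of_comp h₄ c)

theorem inj4 {T : Type*} {a b c d : T} (h1 : a ≠ b) (h2 : a ≠ c) (h3 : a ≠ d) (h4 : b ≠ c)
    (h5 : b ≠ d) (h6 : c ≠ d) : Function.Injective ![a, b, c, d] := by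
  intro i j hij
  fin_cases i <;> fin_cases j <;> simp_all

/-- The first half: rectangles do not occur in the set of flags. -/
theorem half1 (hN : StN) (hW : Words σ) (h₂ : Function.Injective e₂) (h₄ : Function.Injective e₄)
    (g h : G) {s s' t t' : Cant} (hs : s ≠ s') (ht : t ≠ t')
    (h1 : ∃ f, wE σ (s, t) = g * FF σ e₂ e₄ f * h) (h2 : ∃ f, wE σ (s, t') = g * FF σ e₂ e₄ f * h)
    (h3 : ∃ f, wE σ (s', t) = g * FF σ e₂ e₄ f * h)
    (h4 : ∃ f, wE σ (s', t') = g * FF σ e₂ e₄ f * h) : False := by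
  obtain ⟨f1, h1⟩ := h1
  obtain ⟨f2, h2⟩ := h2
  obtain ⟨f3, h3⟩ := h3
  obtain ⟨f4, h4⟩ := h4
  have e1 : FF σ e₂ e₄ f1 = g⁻¹ * wE σ (s, t) * h⁻¹ := by rw [h1]; group
  have e2 : FF σ e₂ e₄ f2 = g⁻¹ * wE σ (s, t') * h⁻¹ := by rw [h2]; group
  have e3 : FF σ e₂ e₄ f3 = g⁻¹ * wE σ (s', t) * h⁻¹ := by rw [h3]; group
  have e4 : FF σ e₂ e₄ f4 = g⁻¹ * wE σ (s', t') * h⁻¹ := by rw [h4]; group
  have key : ∀ {p q : Cant × Cant} {f f' : Fl}, wE σ p = g * FF σ e₂ e₄ f * h →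
      wE σ q = g * FF σ e₂ e₄ f' * h → p ≠ q → f ≠ f' := by
    intro p q f f' hp hq hpq hff
    apply hpq
    apply hW.e1
    rw [hp, hq, hff]
  refine quad hN hW h₂ h₄ ![f1, f2, f4, f3] (inj4 (key h1 h2 ?_) (key h1 h4 ?_) (key h1 h3 ?_)
    (key h2 h4 ?_) (key h2 h3 ?_) (key h4 h3 ?_)) ?_
  · simp [ht]
  · simp [hs]
  · simp [hs]
  · simp [hs]
  · simp [hs]
  · simp [Ne.symm ht]
  · simp only [Matrix.cons_val]
    rw [e1, e2, e3, e4]
    simp only [wE]
    group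

theorem wE_word (g h : G) {n : Type*} (p : n → Cant × Cant) (f : n → Fl)
    (hp : ∀ i, FF σ e₂ e₄ (f i) = g * wE σ (p i) * h) (i j : n) :
    FF σ e₂ e₄ (f i) * (FF σ e₂ e₄ (f j))⁻¹ = g * (wE σ (p i) * (wE σ (p j))⁻¹) * g⁻¹ := by
  rw [hp, hp]
  group

theorem FF_line {f f' : Fl} (h : cL f = cL f') :
    FF σ e₂ e₄ f * (FF σ e₂ e₄ f')⁻¹ =
      (σ 2 (e₂ (cA f)) * σ 3 (e₂ (cB f))) * (σ 2 (e₂ (cA f')) * σ 3 (e₂ (cB f')))⁻¹ := by
  simp only [FF, wF, h]
  group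

/-- The second half: the configuration does not occur among products of two letters. -/
theorem half2 (hN : StN) (hV : StV) (hC : StC) (hW : Words σ) (h₂ : Function.Injective e₂)
    (h₄ : Function.Injective e₄) (S : Set Fl)
    (hS : ∀ Γ : Finset (Fin 5 → ℤ), ∃ ε : ℝ, 0 < ε ∧ ∃ f : Fl, ∀ γ ∈ Γ, mv ε γ f ∈ S) (g h : G)
    (hg : ∀ f ∈ S, ∃ p, FF σ e₂ e₄ f = g * wE σ p * h) : False := by
  classical
  obtain ⟨Γ, hΓ⟩ := hC
  obtain ⟨ε, hε, f, hf⟩ := hS Γ
  have hex : ∀ γ : Fin 5 → ℤ, ∃ p, γ ∈ Γ → FF σ e₂ e₄ (mv ε γ f) = g * wE σ p * h := by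
    intro γ
    by_cases hγ : γ ∈ Γ
    · obtain ⟨p, hp⟩ := hg _ (hf γ hγ)
      exact ⟨p, fun _ => hp⟩
    · exact ⟨(fun _ => true, fun _ => true), fun h => absurd h hγ⟩
  choose p hp using hex
  have hmv : ∀ γ γ', mv ε γ f = mv ε γ' f ↔ γ = γ' := fun γ γ' => (hV ε hε f γ γ').2.2.2
  have hA : ∀ {γ γ'}, zA γ = zA γ' → cA (mv ε γ f) = cA (mv ε γ' f) :=
    fun {γ γ'} h => (hV ε hε f γ γ').1.2 h
  have hB : ∀ {γ γ'}, zB γ = zB γ' → cB (mv ε γ f) = cB (mv ε γ' f) :=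
    fun {γ γ'} h => (hV ε hε f γ γ').2.1.2 h
  have hL : ∀ {γ γ'}, zL γ = zL γ' → cL (mv ε γ f) = cL (mv ε γ' f) :=
    fun {γ γ'} h => (hV ε hε f γ γ').2.2.1.2 h
  refine hΓ (fun γ => (p γ).1) (fun γ => (p γ).2) ?_ ?_ ?_ ?_
  · intro γ hγ γ' hγ' h1 h2
    rw [← hmv]
    apply FF_injective hW h₂ h₄
    rw [hp γ hγ, hp γ' hγ']
    have : p γ = p γ' := Prod.ext h1 h2
    rw [this]
  · intro k hk hinj h1 h2 h3 h4
    refine quad hN hW h₂ h₄ (fun i => mv ε (k i) f) ?_ ?_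
    · intro i j hij
      exact hinj ((hmv _ _).1 hij)
    · rw [hp _ (hk 0), hp _ (hk 1), hp _ (hk 2), hp _ (hk 3)]
      simp only [wE]
      rw [h1, h2, h3, h4]
      group
  · intro k hk hx
    obtain ⟨a1, ⟨a2, a3⟩, a4, ⟨a5, a6⟩, a7, a8, a9⟩ := hx
    refine hW.e6 (fun i => p (k i)) ?_
    have w := wE_word (σ := σ) (e₂ := e₂) (e₄ := e₄) g h (fun i : Fin 6 => p (k i))
      (fun i => mv ε (k i) f) (fun i => hp _ (hk i))
    have w1 := w 0 1
    have w2 := w 2 3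
    have w3 := w 4 5
    rw [FF_line (hL a1)] at w1
    rw [FF_line (hL a4)] at w2
    rw [FF_line (hL a7)] at w3
    have e : g * (wE σ (p (k 0)) * (wE σ (p (k 1)))⁻¹ * wE σ (p (k 2)) * (wE σ (p (k 3)))⁻¹ *
        wE σ (p (k 4)) * (wE σ (p (k 5)))⁻¹) * g⁻¹ = (g * (wE σ (p (k 0)) *
        (wE σ (p (k 1)))⁻¹) * g⁻¹) * (g * (wE σ (p (k 2)) * (wE σ (p (k 3)))⁻¹) * g⁻¹) *
        (g * (wE σ (p (k 4)) * (wE σ (p (k 5)))⁻¹) * g⁻¹) := by group
    rw [← w1, ← w2, ← w3, hA a2, hB a3, hA a5, hB a6, hA a8, hB a9] at e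
    have e' : g * (wE σ (p (k 0)) * (wE σ (p (k 1)))⁻¹ * wE σ (p (k 2)) * (wE σ (p (k 3)))⁻¹ *
        wE σ (p (k 4)) * (wE σ (p (k 5)))⁻¹) * g⁻¹ = 1 := by
      rw [e]; group
    exact conj_eq_one_iff.1 e'
  · intro k hk hx
    obtain ⟨a1, ⟨a2, a3⟩, a4, b1, b2, a5, ⟨a6, a7⟩, a8, b3, b4⟩ := hx
    refine hW.e8 (fun i => p (k i)) ?_
    have w := wE_word (σ := σ) (e₂ := e₂) (e₄ := e₄) g h (fun i : Fin 8 => p (k i))
      (fun i => mv ε (k i) f) (fun i => hp _ (hk i))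
    have w1 := w 0 1
    have w2 := w 2 3
    have w3 := w 4 5
    have w4 := w 6 7
    rw [FF_line (hL a1)] at w1
    rw [FF_line (hL a4)] at w2
    rw [FF_line (hL a5)] at w3
    rw [FF_line (hL a8)] at w4
    have e : g * (wE σ (p (k 0)) * (wE σ (p (k 1)))⁻¹ * wE σ (p (k 2)) * (wE σ (p (k 3)))⁻¹ *
        wE σ (p (k 4)) * (wE σ (p (k 5)))⁻¹ * wE σ (p (k 6)) * (wE σ (p (k 7)))⁻¹) * g⁻¹ =
        (g * (wE σ (p (k 0)) *
        (wE σ (p (k 1)))⁻¹) * g⁻¹) * (g * (wE σ (p (k 2)) * (wE σ (p (k 3)))⁻¹) * g⁻¹) *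
        (g * (wE σ (p (k 4)) * (wE σ (p (k 5)))⁻¹) * g⁻¹) *
        (g * (wE σ (p (k 6)) * (wE σ (p (k 7)))⁻¹) * g⁻¹) := by group
    rw [← w1, ← w2, ← w3, ← w4, hA a2, hB a3, hA a6, hB a7, hB b1, hA b2, hB b3, hA b4] at e
    have e' : g * (wE σ (p (k 0)) * (wE σ (p (k 1)))⁻¹ * wE σ (p (k 2)) * (wE σ (p (k 3)))⁻¹ *
        wE σ (p (k 4)) * (wE σ (p (k 5)))⁻¹ * wE σ (p (k 6)) * (wE σ (p (k 7)))⁻¹) * g⁻¹ = 1 := by
      rw [e]; group
    exact conj_eq_one_iff.1 e'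

end

end SS

open SS

theorem stStar (hI : StI) (hW : StW) (hR : StR) (hN : StN) (hL : StL) (hV : StV) (hC : StC) :
    StStar := by
  intro G _ _ _ _ _ _ hG
  obtain ⟨σ, hσ, hi⟩ := hI G hG
  have W := hW G σ hi
  obtain ⟨ν, hν, hν0⟩ := exists_measure_cantor
  have hunc : ¬ Countable Cant := by
    intro h
    have h1 := hν0 univ countable_univ
    simp at h1
  have hunc2 : ¬ Countable (ℝ × ℝ) := by
    intro h
    have : Countable ℝ := Function.Injective.countable (f := fun x : ℝ => (x, (0 : ℝ)))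
      (fun x y h => (Prod.mk.inj h).1)
    exact Cardinal.not_countable_real (countable_univ)
  have hunc4 : ¬ Countable (ℝ × ℝ × ℝ × ℝ) := by
    intro h
    have : Countable ℝ := Function.Injective.countable
      (f := fun x : ℝ => (x, (0 : ℝ), (0 : ℝ), (0 : ℝ))) (fun x y h => (Prod.mk.inj h).1)
    exact Cardinal.not_countable_real (countable_univ)
  let e₂ : ℝ × ℝ ≃ᵐ Cant := PolishSpace.measurableEquivOfNotCountable hunc2 hunc
  let e₄ : ℝ × ℝ × ℝ × ℝ ≃ᵐ Cant := PolishSpace.measurableEquivOfNotCountable hunc4 hunc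
  have h₂ : Function.Injective e₂ := e₂.injective
  have h₄ : Function.Injective e₄ := e₄.injective
  have cE : Continuous (wE σ) := by
    unfold wE
    exact ((hσ 0).comp continuous_fst).mul ((hσ 1).comp continuous_snd)
  have cF : Continuous (wF σ) := by
    unfold wF
    exact (((hσ 2).comp continuous_fst).mul ((hσ 3).comp (continuous_fst.comp continuous_snd))).mul
      ((hσ 4).comp (continuous_snd.comp continuous_snd))
  have mF : Measurable (FF σ e₂ e₄) := by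
    unfold FF
    exact cF.measurable.comp ((e₂.measurable.comp measurable_cA).prodMk
      ((e₂.measurable.comp measurable_cB).prodMk (e₄.measurable.comp measurable_cL)))
  have iF : Function.Injective (FF σ e₂ e₄) := FF_injective W h₂ h₄
  have eF : MeasurableEmbedding (FF σ e₂ e₄) := mF.measurableEmbedding iF
  have cD : IsCompact (range (wE σ)) := isCompact_range cE
  have img : ∀ (g h : G) (X : Set G), (fun x => g * x * h) '' X =
      (fun x => g⁻¹ * x * h⁻¹) ⁻¹' X := by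
    intro g h X
    ext y
    constructor
    · rintro ⟨x, hx, rfl⟩
      have : g⁻¹ * (g * x * h) * h⁻¹ = x := by group
      change g⁻¹ * (g * x * h) * h⁻¹ ∈ X
      rw [this]
      exact hx
    · intro hy
      exact ⟨_, hy, by group⟩
  have mI : ∀ (g h : G) (X : Set G), MeasurableSet X → MeasurableSet ((fun x => g * x * h) '' X) := by
    intro g h X hX
    rw [img]
    exact (by fun_prop : Continuous fun x : G => g⁻¹ * x * h⁻¹).measurable hX
  refine ⟨(ν.prod ν).map (wE σ), (volume.restrict (Icc (0 : Fl) 1)).map (FF σ e₂ e₄),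
    range (wE σ), range (FF σ e₂ e₄), ?_, ?_, cD.measurableSet, eF.measurableSet_range, ?_, ?_, ?_, ?_⟩
  · exact Measure.isProbabilityMeasure_map cE.measurable.aemeasurable
  · have : IsProbabilityMeasure (volume.restrict (Icc (0 : Fl) 1)) := by
      constructor
      rw [Measure.restrict_apply_univ, Real.volume_Icc_pi]
      simp
    exact Measure.isProbabilityMeasure_map mF.aemeasurable
  · rw [Measure.map_apply cE.measurable cD.measurableSet.compl]
    have : wE σ ⁻¹' (range (wE σ))ᶜ = ∅ := by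
      ext x; simp
    rw [this]; simp
  · rw [Measure.map_apply mF eF.measurableSet_range.compl]
    have : FF σ e₂ e₄ ⁻¹' (range (FF σ e₂ e₄))ᶜ = ∅ := by
      ext x; simp
    rw [this]; simp
  · intro g h
    rw [Measure.map_apply cE.measurable (mI g h _ eF.measurableSet_range)]
    by_contra hne
    obtain ⟨s, s', t, t', hs, ht, x1, x2, x3, x4⟩ := hR ν (fun x => hν0 _ (countable_singleton x)) _
      (cE.measurable (mI g h _ eF.measurableSet_range)) hne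
    have key : ∀ p, p ∈ wE σ ⁻¹' ((fun x => g * x * h) '' range (FF σ e₂ e₄)) →
        ∃ f, wE σ p = g * FF σ e₂ e₄ f * h := by
      rintro p ⟨_, ⟨f, rfl⟩, hf⟩
      exact ⟨f, hf.symm⟩
    exact half1 hN W h₂ h₄ g h hs ht (key _ x1) (key _ x2) (key _ x3) (key _ x4)
  · intro g h
    have mS : MeasurableSet (FF σ e₂ e₄ ⁻¹' ((fun x => g * x * h) '' range (wE σ))) :=
      mF (mI g h _ cD.measurableSet)
    rw [Measure.map_apply mF (mI g h _ cD.measurableSet), Measure.restrict_apply mS]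
    by_contra hne
    refine half2 hN hV hC W h₂ h₄ _ (fun Γ => hL _ (mS.inter measurableSet_Icc) hne Γ) g h ?_
    rintro f ⟨⟨_, ⟨p, rfl⟩, hp⟩, _⟩
    exact ⟨p, hp.symm⟩

end PQ

end Pool.Agent.MP8b9
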