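import Pool.Agent.Lib.MP_8b9ec4_lc.PQ.Stmts

/-!
# Module V: the map `mv` respects the letters
-/

namespace Pool.Agent.MP8b9

namespace PQ

namespace VAux

theorem eps_inj {ε : ℝ} (hε : 0 < ε) {a b : ℤ} (c : ℝ) : c + ε * a = c + ε * b ↔ a = b := by
  rw [add_right_inj, mul_right_inj' hε.ne', Int.cast_inj]

theorem cA_mv (ε : ℝ) (γ : Fin 5 → ℤ) (f : Fl) : cA (mv ε γ f) =
    (f 0 + ε * γ 0, f 1 * f 0 + f 3 + ε * (f 1 * γ 0) + ε ^ 2 * ((γ 1 * γ 0 + γ 3 : ℤ) : ℝ)) := by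
  simp only [cA, mv, Prod.mk.injEq]
  constructor
  · simp
  · simp
    ring

theorem cB_mv (ε : ℝ) (γ : Fin 5 → ℤ) (f : Fl) : cB (mv ε γ f) =
    (f 0 + ε * γ 0, f 2 * f 0 + f 4 + ε * (f 2 * γ 0) + ε ^ 2 * ((γ 2 * γ 0 + γ 4 : ℤ) : ℝ)) := by
  simp only [cB, mv, Prod.mk.injEq]
  constructor
  · simp
  · simp
    ring

theorem pair_iff {ε : ℝ} (hε : 0 < ε) (x c d : ℝ) (a a' e e' : ℤ) :
    ((x + ε * a, c + ε * (d * a) + ε ^ 2 * (e : ℝ)) : ℝ × ℝ) =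
      (x + ε * a', c + ε * (d * a') + ε ^ 2 * (e' : ℝ)) ↔ (a, e) = (a', e') := by
  rw [Prod.mk.injEq, Prod.mk.injEq, eps_inj hε]
  constructor
  · rintro ⟨rfl, h⟩
    rw [add_right_inj, mul_right_inj' (pow_pos hε 2).ne', Int.cast_inj] at h
    exact ⟨rfl, h⟩
  · rintro ⟨rfl, rfl⟩
    exact ⟨rfl, rfl⟩

theorem line_iff {ε : ℝ} (hε : 0 < ε) (f : Fl) (γ γ' : Fin 5 → ℤ) :
    cL (mv ε γ f) = cL (mv ε γ' f) ↔ zL γ = zL γ' := by
  have h2 : ε ^ 2 ≠ 0 := (pow_pos hε 2).ne'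
  simp only [cL, mv, zL, Prod.mk.injEq]
  constructor
  · rintro ⟨h1, h3, h4, h5⟩
    have e1 : γ 1 = γ' 1 := (eps_inj hε (f 1)).1 (by simpa using h1)
    have e2 : γ 2 = γ' 2 := (eps_inj hε (f 2)).1 (by simpa using h3)
    have e3 : γ 3 = γ' 3 := by
      have : f 3 + ε ^ 2 * (γ 3 : ℝ) - ε * γ 1 * f 0 = f 3 + ε ^ 2 * (γ' 3 : ℝ) - ε * γ' 1 * f 0 := by
        simpa using h4
      rw [e1, sub_left_inj, add_right_inj, mul_right_inj' h2, Int.cast_inj] at this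
      exact this
    have e4 : γ 4 = γ' 4 := by
      have : f 4 + ε ^ 2 * (γ 4 : ℝ) - ε * γ 2 * f 0 = f 4 + ε ^ 2 * (γ' 4 : ℝ) - ε * γ' 2 * f 0 := by
        simpa using h5
      rw [e2, sub_left_inj, add_right_inj, mul_right_inj' h2, Int.cast_inj] at this
      exact this
    exact ⟨e1, e2, e3, e4⟩
  · rintro ⟨h1, h3, h4, h5⟩
    simp [h1, h3, h4, h5]

end VAux

open VAux in
/-- (V) -/
theorem stV : StV := by
  intro ε hε f γ γ'
  have hA : cA (mv ε γ f) = cA (mv ε γ' f) ↔ zA γ = zA γ' := by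
    rw [cA_mv, cA_mv]
    exact pair_iff hε _ _ _ _ _ _ _
  have hL := line_iff hε f γ γ'
  refine ⟨hA, ?_, hL, ?_⟩
  · rw [cB_mv, cB_mv]
    exact pair_iff hε _ _ _ _ _ _ _
  · constructor
    · intro h
      have h1 := hL.1 (congrArg cL h)
      have h2 := hA.1 (congrArg cA h)
      simp only [zL, Prod.mk.injEq] at h1
      simp only [zA, Prod.mk.injEq] at h2
      obtain ⟨e1, e2, e3, e4⟩ := h1
      funext i
      fin_cases i
      · exact h2.1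
      · exact e1
      · exact e2
      · exact e3
      · exact e4
    · rintro rfl
      rfl

end PQ

end Pool.Agent.MP8b9
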