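import Mathlib
import Pool.Agent.Lib.MP_8b9ec4_lc.PQ.Stmts

/-!
# Words in independent letters
-/

set_option autoImplicit false

namespace Pool.Agent.MP8b9

namespace PQ

namespace W

theorem twice_of {G : Type*} [Group G] {σ : ℕ → Cant → G} (h : Ind σ) {k n : ℕ}
    (a : Fin n → ℕ) (x : Fin n → Cant) (ε : Fin n → Bool)
    (hprod : (List.ofFn fun j => bif ε j then σ (a j) (x j) else (σ (a j) (x j))⁻¹).prod = 1)
    (hn : n ≤ 16) (c : ℕ) (v : Fin k → Cant) (pos : Fin k → Fin n) (hpos : ∀ i, a (pos i) = c)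
    (hall : ∀ j, a j = c → ∃ i, j = pos i) (hv : ∀ i, x (pos i) = v i) : Twice v := by
  by_contra hcon
  unfold Twice at hcon
  push Not at hcon
  obtain ⟨i, hi⟩ := hcon
  refine h n (fun j => (a j, x j)) ε (pos i) hn (fun j hj hw => ?_) hprod
  rw [Prod.mk.injEq, hpos i, hv i] at hw
  obtain ⟨i', rfl⟩ := hall j hw.1
  rw [hv i'] at hw
  by_cases h1 : i' = i
  · exact hj (by rw [h1])
  · exact hi i' h1 hw.2

theorem eq_of_twice {a b : Cant} (h : Twice ![a, b]) : a = b := by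
  obtain ⟨j, hj, hj'⟩ := h 0
  fin_cases j
  · exact absurd rfl hj
  · exact hj'.symm

variable {G : Type*} [Group G] {σ : ℕ → Cant → G}

theorem e1 (h : Ind σ) : Function.Injective (wE σ) := by
  intro p q hpq
  have hp : (List.ofFn fun j : Fin 4 =>
      bif ![true, true, false, false] j then
        σ (![0, 1, 1, 0] j) (![p.1, p.2, q.2, q.1] j)
      else (σ (![0, 1, 1, 0] j) (![p.1, p.2, q.2, q.1] j))⁻¹).prod = 1 := by
    have h1 : wE σ p * (wE σ q)⁻¹ = 1 := by rw [hpq, mul_inv_cancel]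
    simpa [List.ofFn_succ, wE, mul_assoc] using h1
  have key := twice_of h (k := 2) _ _ _ hp (by norm_num)
  have h0 := key 0 ![p.1, q.1] ![0, 3] (by decide) (by decide) (by intro i; fin_cases i <;> rfl)
  have h1 := key 1 ![p.2, q.2] ![1, 2] (by decide) (by decide) (by intro i; fin_cases i <;> rfl)
  exact Prod.ext (eq_of_twice h0) (eq_of_twice h1)

theorem f1 (h : Ind σ) : Function.Injective (wF σ) := by
  intro p q hpq
  have hp : (List.ofFn fun j : Fin 6 =>
      bif ![true, true, true, false, false, false] j then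
        σ (![2, 3, 4, 4, 3, 2] j) (![p.1, p.2.1, p.2.2, q.2.2, q.2.1, q.1] j)
      else (σ (![2, 3, 4, 4, 3, 2] j) (![p.1, p.2.1, p.2.2, q.2.2, q.2.1, q.1] j))⁻¹).prod =
        1 := by
    have h1 : wF σ p * (wF σ q)⁻¹ = 1 := by rw [hpq, mul_inv_cancel]
    simpa [List.ofFn_succ, wF, mul_assoc] using h1
  have key := twice_of h (k := 2) _ _ _ hp (by norm_num)
  have h0 := key 2 ![p.1, q.1] ![0, 5] (by decide) (by decide) (by intro i; fin_cases i <;> rfl)
  have h1 := key 3 ![p.2.1, q.2.1] ![1, 4] (by decide) (by decide)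
    (by intro i; fin_cases i <;> rfl)
  have h2 := key 4 ![p.2.2, q.2.2] ![2, 3] (by decide) (by decide)
    (by intro i; fin_cases i <;> rfl)
  exact Prod.ext (eq_of_twice h0) (Prod.ext (eq_of_twice h1) (eq_of_twice h2))

theorem f4 (h : Ind σ) (p : Fin 4 → Cant × Cant × Cant)
    (hp : (wF σ (p 0))⁻¹ * wF σ (p 1) * (wF σ (p 2))⁻¹ * wF σ (p 3) = 1) :
    Twice (fun i => (p i).1) ∧ Twice (fun i => (p i).2.1) ∧ Twice (fun i => (p i).2.2) := by
  have hp : (List.ofFn fun j : Fin 12 =>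
      bif ![false, false, false, true, true, true, false, false, false, true, true, true] j then
        σ (![4, 3, 2, 2, 3, 4, 4, 3, 2, 2, 3, 4] j) (![(p 0).2.2, (p 0).2.1, (p 0).1,
          (p 1).1, (p 1).2.1, (p 1).2.2, (p 2).2.2, (p 2).2.1, (p 2).1,
          (p 3).1, (p 3).2.1, (p 3).2.2] j)
      else (σ (![4, 3, 2, 2, 3, 4, 4, 3, 2, 2, 3, 4] j) (![(p 0).2.2, (p 0).2.1, (p 0).1,
          (p 1).1, (p 1).2.1, (p 1).2.2, (p 2).2.2, (p 2).2.1, (p 2).1,
          (p 3).1, (p 3).2.1, (p 3).2.2] j))⁻¹).prod = 1 := by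
    simpa [List.ofFn_succ, wF, mul_assoc, mul_inv_rev] using hp
  have key := twice_of h (k := 4) _ _ _ hp (by norm_num)
  exact ⟨key 2 _ ![2, 3, 8, 9] (by decide) (by decide) (by intro i; fin_cases i <;> rfl),
    key 3 _ ![1, 4, 7, 10] (by decide) (by decide) (by intro i; fin_cases i <;> rfl),
    key 4 _ ![0, 5, 6, 11] (by decide) (by decide) (by intro i; fin_cases i <;> rfl)⟩

theorem e6 (h : Ind σ) (r : Fin 6 → Cant × Cant)
    (hp : wE σ (r 0) * (wE σ (r 1))⁻¹ * wE σ (r 2) * (wE σ (r 3))⁻¹ * wE σ (r 4) *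
      (wE σ (r 5))⁻¹ = 1) :
    Twice (fun i => (r i).1) ∧ Twice (fun i => (r i).2) := by
  have hp : (List.ofFn fun j : Fin 12 =>
      bif ![true, true, false, false, true, true, false, false, true, true, false, false] j then
        σ (![0, 1, 1, 0, 0, 1, 1, 0, 0, 1, 1, 0] j) (![(r 0).1, (r 0).2, (r 1).2, (r 1).1,
          (r 2).1, (r 2).2, (r 3).2, (r 3).1, (r 4).1, (r 4).2, (r 5).2, (r 5).1] j)
      else (σ (![0, 1, 1, 0, 0, 1, 1, 0, 0, 1, 1, 0] j) (![(r 0).1, (r 0).2, (r 1).2, (r 1).1,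
          (r 2).1, (r 2).2, (r 3).2, (r 3).1, (r 4).1, (r 4).2, (r 5).2, (r 5).1] j))⁻¹).prod =
        1 := by
    simpa [List.ofFn_succ, wE, mul_assoc, mul_inv_rev] using hp
  have key := twice_of h (k := 6) _ _ _ hp (by norm_num)
  exact ⟨key 0 _ ![0, 3, 4, 7, 8, 11] (by decide) (by decide) (by intro i; fin_cases i <;> rfl),
    key 1 _ ![1, 2, 5, 6, 9, 10] (by decide) (by decide) (by intro i; fin_cases i <;> rfl)⟩

theorem e8 (h : Ind σ) (r : Fin 8 → Cant × Cant)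
    (hp : wE σ (r 0) * (wE σ (r 1))⁻¹ * wE σ (r 2) * (wE σ (r 3))⁻¹ * wE σ (r 4) *
      (wE σ (r 5))⁻¹ * wE σ (r 6) * (wE σ (r 7))⁻¹ = 1) :
    Twice (fun i => (r i).1) ∧ Twice (fun i => (r i).2) := by
  have hp : (List.ofFn fun j : Fin 16 =>
      bif ![true, true, false, false, true, true, false, false, true, true, false, false,
        true, true, false, false] j then
        σ (![0, 1, 1, 0, 0, 1, 1, 0, 0, 1, 1, 0, 0, 1, 1, 0] j) (![(r 0).1, (r 0).2, (r 1).2,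
          (r 1).1, (r 2).1, (r 2).2, (r 3).2, (r 3).1, (r 4).1, (r 4).2, (r 5).2, (r 5).1,
          (r 6).1, (r 6).2, (r 7).2, (r 7).1] j)
      else (σ (![0, 1, 1, 0, 0, 1, 1, 0, 0, 1, 1, 0, 0, 1, 1, 0] j) (![(r 0).1, (r 0).2,
          (r 1).2, (r 1).1, (r 2).1, (r 2).2, (r 3).2, (r 3).1, (r 4).1, (r 4).2, (r 5).2,
          (r 5).1, (r 6).1, (r 6).2, (r 7).2, (r 7).1] j))⁻¹).prod = 1 := by
    simpa [List.ofFn_succ, wE, mul_assoc, mul_inv_rev] using hp
  have key := twice_of h (k := 8) _ _ _ hp (by norm_num)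
  exact ⟨key 0 _ ![0, 3, 4, 7, 8, 11, 12, 15] (by decide) (by decide)
      (by intro i; fin_cases i <;> rfl),
    key 1 _ ![1, 2, 5, 6, 9, 10, 13, 14] (by decide) (by decide)
      (by intro i; fin_cases i <;> rfl)⟩

end W

/-- (W) The words. -/
theorem stW : StW := fun _ _ _ h => ⟨W.e1 h, W.f1 h, W.f4 h, W.e6 h, W.e8 h⟩

end PQ

end Pool.Agent.MP8b9
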