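import Pool.Agent.Lib.MP_8b9ec4_lc.PQ.I
import Pool.Agent.Lib.MP_8b9ec4_lc.PQ.W
import Pool.Agent.Lib.MP_8b9ec4_lc.PQ.R
import Pool.Agent.Lib.MP_8b9ec4_lc.PQ.N
import Pool.Agent.Lib.MP_8b9ec4_lc.PQ.L
import Pool.Agent.Lib.MP_8b9ec4_lc.PQ.V
import Pool.Agent.Lib.MP_8b9ec4_lc.PQ.C1
import Pool.Agent.Lib.MP_8b9ec4_lc.PQ.C
import Pool.Agent.Lib.MP_8b9ec4_lc.PQ.P
import Pool.Agent.Lib.MP_8b9ec4_lc.PQ.S

/-!
# Every uncountable Polish group has an orthogonal pair of measures; the partition under CH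
-/

namespace Pool.Agent.MP8b9

namespace PQ

open MeasureTheory

theorem star_of_uncountable (G : Type) [Group G] [TopologicalSpace G] [IsTopologicalGroup G]
    [PolishSpace G] [MeasurableSpace G] [BorelSpace G] (hG : ¬ Countable G) : Star G :=
  stStar stI stW stR stN stL stV (stC stC1) G hG

theorem partition_of_CH (hCH : Cardinal.continuum.{0} = Cardinal.aleph 1) (G : Type) [Group G]
    [TopologicalSpace G] [IsTopologicalGroup G] [PolishSpace G] [MeasurableSpace G] [BorelSpace G]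
    (hG : ¬ Countable G) : ∃ S : Set G, NaivelyHaarNull S ∧ NaivelyHaarNull Sᶜ :=
  stP G hCH (star_of_uncountable G hG)

end PQ

end Pool.Agent.MP8b9
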