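import Mathlib
import Pool.Agent.Lib.MP_8b9ec4_lc.Myc
import Pool.Agent.Lib.MP_8b9ec4_lc.PQ.Stmts

/-!
# Independent letters in uncountable Polish groups

Module (I): in every uncountable Polish group there are continuous families `σ n : Cant → G` such
that no word of length at most `16` in which some letter occurs exactly once is trivial.
-/

namespace Pool.Agent.MP8b9

namespace PQ

open MeasureTheory Set

namespace IAux

variable {G : Type*} [Group G]

/-- A product is an injective function of each factor. -/
theorem prod_inj {n : ℕ} (g g' : Fin n → G) (i : Fin n) (h : ∀ j, j ≠ i → g j = g' j)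
    (hp : (List.ofFn g).prod = (List.ofFn g').prod) : g i = g' i := by
  induction n with
  | zero => exact i.elim0
  | succ n ih =>
    rw [List.ofFn_succ, List.ofFn_succ, List.prod_cons, List.prod_cons] at hp
    refine Fin.cases (motive := fun i => (∀ j, j ≠ i → g j = g' j) → g i = g' i) ?_ ?_ i h
    · intro h
      have h1 : (fun j : Fin n => g j.succ) = fun j => g' j.succ :=
        funext fun j => h _ (Fin.succ_ne_zero j)
      rw [h1] at hp
      exact mul_right_cancel hp
    · intro i h
      rw [h 0 (Fin.succ_ne_zero i).symm] at hp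
      exact ih (fun j => g j.succ) (fun j => g' j.succ) i
        (fun j hj => h _ (fun he => hj (Fin.succ_injective _ he))) (mul_left_cancel hp)

/-- Products are continuous. -/
theorem continuous_prod {X : Type*} [TopologicalSpace X] [TopologicalSpace G]
    [IsTopologicalGroup G] {n : ℕ} (f : Fin n → X → G) (hf : ∀ j, Continuous (f j)) :
    Continuous fun x => (List.ofFn fun j => f j x).prod := by
  induction n with
  | zero => simpa using continuous_const
  | succ n ih =>
    simp only [List.ofFn_succ, List.prod_cons]
    exact (hf 0).mul (ih (fun j => f j.succ) fun j => hf _)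

/-- There are no isolated points. -/
theorem interior_eq_empty [TopologicalSpace G] [IsTopologicalGroup G] [PolishSpace G]
    (hG : ¬ Countable G) {s : Set G} (hs : s.Subsingleton) : interior s = ∅ := by
  by_contra hne
  obtain ⟨x, hx⟩ := nonempty_iff_ne_empty.2 hne
  have h1 : interior s = {x} := by
    refine subset_antisymm (fun y hy => ?_) (singleton_subset_iff.2 hx)
    exact hs (interior_subset hy) (interior_subset hx)
  have h2 : IsOpen ({x} : Set G) := h1 ▸ isOpen_interior
  have h3 : IsOpen ({1} : Set G) := by
    have h4 := h2.preimage (continuous_const.mul continuous_id : Continuous fun y : G => x * y)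
    convert h4 using 1
    ext y
    rw [mem_preimage, mem_singleton_iff, mem_singleton_iff]
    simp
  have h5 : DiscreteTopology G := discreteTopology_of_isOpen_singleton_one h3
  exact hG (TopologicalSpace.separableSpace_iff_countable.1 inferInstance)

end IAux

open IAux in
theorem stI : StI := by
  intro G _ _ _ _ hG
  have hne : Nonempty G := ⟨1⟩
  let ι := {p : Σ n : ℕ, (Fin n → Bool) × Fin n // p.1 ≤ 16}
  let W : ∀ p : ι, (Fin 16 → G) → Fin p.1.1 → G := fun p y j =>
    bif p.1.2.1 j then y (Fin.castLE p.2 j) else (y (Fin.castLE p.2 j))⁻¹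
  let F : ι → Set (Fin 16 → G) := fun p => {y | (List.ofFn (W p y)).prod = 1}
  obtain ⟨σ, hσ, h⟩ := mycielski_pattern (Y := G) (ι := ι) 16 F (fun p => Fin.castLE p.2 p.1.2.2)
    (fun p => by
      have h1 : Continuous fun y : Fin 16 → G => (List.ofFn (W p y)).prod := by
        refine continuous_prod (fun j y => W p y j) fun j => ?_
        change Continuous fun y : Fin 16 → G =>
          bif p.1.2.1 j then y (Fin.castLE p.2 j) else (y (Fin.castLE p.2 j))⁻¹
        cases p.1.2.1 j
        · exact (continuous_apply _).inv
        · exact continuous_apply _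
      exact isClosed_singleton.preimage h1)
    (fun p y => by
      refine interior_eq_empty hG fun t ht t' ht' => ?_
      have ht1 : (List.ofFn (W p (Function.update y (Fin.castLE p.2 p.1.2.2) t))).prod = 1 := ht
      have ht2 : (List.ofFn (W p (Function.update y (Fin.castLE p.2 p.1.2.2) t'))).prod = 1 := ht'
      have h1 := prod_inj _ _ p.1.2.2 (fun j hj => ?_) (ht1.trans ht2.symm)
      · change (bif p.1.2.1 p.1.2.2 then Function.update y _ t (Fin.castLE p.2 p.1.2.2) else
          (Function.update y _ t (Fin.castLE p.2 p.1.2.2))⁻¹) =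
          (bif p.1.2.1 p.1.2.2 then Function.update y _ t' (Fin.castLE p.2 p.1.2.2) else
          (Function.update y _ t' (Fin.castLE p.2 p.1.2.2))⁻¹) at h1
        rw [Function.update_self, Function.update_self] at h1
        cases hb : p.1.2.1 p.1.2.2
        · rw [hb] at h1
          exact inv_injective h1
        · rw [hb] at h1
          exact h1
      · have h2 : Fin.castLE p.2 j ≠ Fin.castLE p.2 p.1.2.2 :=
          fun he => hj (Fin.castLE_injective p.2 he)
        change (bif p.1.2.1 j then Function.update y _ t (Fin.castLE p.2 j) else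
          (Function.update y _ t (Fin.castLE p.2 j))⁻¹) =
          (bif p.1.2.1 j then Function.update y _ t' (Fin.castLE p.2 j) else
          (Function.update y _ t' (Fin.castLE p.2 j))⁻¹)
        rw [Function.update_of_ne h2, Function.update_of_ne h2])
  refine ⟨fun n x => σ (code n x), fun n => hσ.comp (continuous_code n), ?_⟩
  intro n w ε i hn hw hprod
  let p : ι := ⟨⟨n, ε, i⟩, hn⟩
  let z : Fin 16 → Cant := fun j =>
    if hj : (j : ℕ) < n then code (w ⟨j, hj⟩).1 (w ⟨j, hj⟩).2 else code ((w i).1 + 1) (w i).2
  have hz : ∀ j : Fin n, z (Fin.castLE hn j) = code (w j).1 (w j).2 := by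
    intro j
    have hj : ((Fin.castLE hn j : Fin 16) : ℕ) < n := j.2
    exact dif_pos hj
  refine h p z (fun j hj => ?_) ?_
  · change z j ≠ z (Fin.castLE hn i)
    rw [hz]
    by_cases hjn : (j : ℕ) < n
    · have h1 : z j = code (w ⟨j, hjn⟩).1 (w ⟨j, hjn⟩).2 := dif_pos hjn
      rw [h1]
      have h2 : (⟨j, hjn⟩ : Fin n) ≠ i := by
        intro he
        apply hj
        apply Fin.ext
        change (j : ℕ) = (i : ℕ)
        rw [← he]
      have h3 := hw _ h2
      by_cases h4 : (w ⟨j, hjn⟩).1 = (w i).1
      · intro h5
        rw [h4] at h5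
        exact h3 (Prod.ext h4 (code_injective _ h5))
      · exact code_ne h4 _ _
    · have h1 : z j = code ((w i).1 + 1) (w i).2 := dif_neg hjn
      rw [h1]
      exact code_ne (by omega) _ _
  · change (List.ofFn (W p fun j => σ (z j))).prod = 1
    rw [← hprod]
    congr 2
    funext j
    change (bif ε j then σ (z (Fin.castLE hn j)) else (σ (z (Fin.castLE hn j)))⁻¹) = _
    rw [hz]

end PQ

end Pool.Agent.MP8b9
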